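import Mathlib

/-!
# Project SC: the least primes in the residue classes of short intervals of classes

Statements of the steps. `Λ` is `ArithmeticFunction.vonMangoldt`.
-/

set_option autoImplicit false

namespace Pool.Agent.K9h44.SC

open Finset

/-- `m / φ(m)` -/
noncomputable def w (m : ℕ) : ℝ := (m : ℝ) / (Nat.totient m : ℝ)

/-- the truncated mean value of `m / φ(m)` -/
noncomputable def cR (R : ℕ) : ℝ :=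
  ∑ e ∈ (Icc 1 R).filter Squarefree, 1 / ((e : ℝ) * (Nat.totient e : ℝ))

/-- the primes of the class `c` modulo `q` in `(x, x + Y]` less the expected value -/
noncomputable def Er (q c Y x : ℕ) : ℝ :=
  (∑ n ∈ (Ioc x (x + Y)).filter (fun n => n ≡ c [MOD q]), ArithmeticFunction.vonMangoldt n) -
    (if c.Coprime q then (Y : ℝ) / (Nat.totient q : ℝ) else 0)

/-- primes in residue classes in almost all short intervals (this is `K9h19.CR.lam_cls`) -/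
def S_LAM : Prop := ∀ B U : ℕ, ∃ C X₀ : ℕ, ∀ x : ℕ, X₀ ≤ x → ∀ q : ℕ, 1 ≤ q →
  (q : ℝ) ≤ Real.log x ^ B → ∀ c Y : ℕ, (x : ℝ) ^ (1 / 3 : ℝ) * Real.log x ^ C ≤ Y → Y ≤ x →
  ∑ m ∈ Ioc x (2 * x), |Er q c Y m| ^ 2 ≤ x * (Y : ℝ) ^ 2 / Real.log x ^ U

/-- RNG: the same over a range of powers of the logarithm, first powers -/
def S_RNG : Prop := ∀ B U : ℕ, ∃ C X₀ : ℕ, ∀ M : ℕ, X₀ ≤ M → ∀ T : ℕ, (T : ℝ) ≤ Real.log M ^ B →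
  ∀ q : ℕ, 1 ≤ q → (q : ℝ) ≤ Real.log M ^ B → ∀ c Y : ℕ,
  (M : ℝ) ^ (1 / 3 : ℝ) * Real.log M ^ C ≤ Y → Y ≤ M →
  ∑ x ∈ Ioc M (T * M), |Er q c Y x| ≤ M * (Y : ℝ) / Real.log M ^ U

/-- ONE: the primes in the windows `(f m, f m + H]` -/
def S_ONE : Prop := ∀ B U : ℕ, ∃ C X₀ : ℕ, ∀ M : ℕ, X₀ ≤ M → ∀ T : ℕ, (T : ℝ) ≤ Real.log M ^ B →
  ∀ f : ℕ → ℕ, (∀ m ∈ Ioc M (2 * M), M < f m ∧ f m ≤ T * M) →
  (∀ m ∈ Ioc M (2 * M), ∀ m' ∈ Ioc M (2 * M), m < m' → f m < f m') →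
  ∀ H : ℕ, (M : ℝ) ^ (1 / 3 : ℝ) * Real.log M ^ C ≤ H → H ≤ M →
  ∑ m ∈ Ioc M (2 * M), |∑ n ∈ Ioc (f m) (f m + H), ArithmeticFunction.vonMangoldt n - H| ≤
    M * (H : ℝ) / Real.log M ^ U

/-- PAIR: pairs of primes `n`, `n + d m` with `n ∈ (f m, f m + H]`, upper bound -/
def S_PAIR : Prop := ∀ B U : ℕ, ∃ C X₀ : ℕ, ∀ M : ℕ, X₀ ≤ M → ∀ T : ℕ, (T : ℝ) ≤ Real.log M ^ B →
  ∀ f : ℕ → ℕ, (∀ m ∈ Ioc M (2 * M), M < f m ∧ f m ≤ T * M) →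
  (∀ m ∈ Ioc M (2 * M), ∀ m' ∈ Ioc M (2 * M), m < m' → f m < f m') →
  ∀ d : ℕ, 1 ≤ d → (d : ℝ) ≤ Real.log M ^ B →
  ∀ H : ℕ, (M : ℝ) ^ (1 / 3 : ℝ) * Real.log M ^ C ≤ H → H ≤ M →
  ∑ m ∈ Ioc M (2 * M), ∑ n ∈ Ioc (f m) (f m + H),
      ArithmeticFunction.vonMangoldt n * ArithmeticFunction.vonMangoldt (n + d * m) ≤
    w d * (∑ m ∈ Ioc M (2 * M), ∑ n ∈ Ioc (f m) (f m + H), ArithmeticFunction.vonMangoldt n) +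
      M * (H : ℝ) / Real.log M ^ U

/-- W: bounds for `m / φ(m)` -/
def S_W : Prop := ∀ m : ℕ, 1 ≤ m → 1 ≤ w m ∧ w m ≤ 1 + 2 * Real.log m

/-- SUMW: mean value of `m / φ(m)`, lower bound -/
def S_SUMW : Prop := ∀ M R : ℕ, R ≤ M → cR R * M - R ≤ ∑ m ∈ Ioc M (2 * M), w m

/-- SUMD: upper bound for the sum over differences -/
def S_SUMD : Prop := ∀ J R : ℕ,
  2 * ∑ j ∈ Ioc J (J + R), ∑ j' ∈ Ioc j (J + R), w (j' - j) ≤ (R : ℝ) ^ 2 * cR R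

/-- COP: the number of the integers prime to `m` in an interval -/
def S_COP : Prop := ∀ m a H : ℕ, 1 ≤ m →
  (((Ioc a (a + H)).filter (fun c => c.Coprime m)).card : ℝ) ≤
    (H : ℝ) * (Nat.totient m : ℝ) / m + (m.divisors.card : ℝ)

/-- Z: the third term of the variance -/
def S_Z : Prop := ∃ M₀ : ℕ, ∀ M : ℕ, M₀ ≤ M → ∀ (s : ℕ → ℕ) (H : ℕ),
  ∑ m ∈ Ioc M (2 * M), w m ^ 2 * (((Ioc (s m) (s m + H)).filter (fun c => c.Coprime m)).card : ℝ) ≤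
    H * (∑ m ∈ Ioc M (2 * M), w m) + M * Real.log M ^ 4

/-- NC: prime powers not prime to `m` -/
def S_NC : Prop := ∃ M₀ : ℕ, ∀ M : ℕ, M₀ ≤ M → ∀ m ∈ Ioc M (2 * M), ∀ a b : ℕ, (b : ℝ) ≤ (M : ℝ) ^ 2 →
  ∑ n ∈ (Ioc a b).filter (fun n => ¬ n.Coprime m), ArithmeticFunction.vonMangoldt n ≤
    Real.log M ^ 3

/-- PP: proper prime powers -/
def S_PP : Prop := ∃ N₀ : ℕ, ∀ N : ℕ, N₀ ≤ N →
  (((Icc 1 N).filter (fun n => IsPrimePow n ∧ ¬ n.Prime)).card : ℝ) ≤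
    (N : ℝ) ^ (1 / 2 : ℝ) * Real.log N ^ 2

end Pool.Agent.K9h44.SC
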