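import Mathlib
import Pool.Agent.K9h44.SC.Stm

/-!
# Leaf ARI: bounds and mean values of `m / φ(m)`
-/

set_option autoImplicit false

namespace Pool.Agent.K9h44.SC

open Finset

lemma ari_totient_prod (s : Finset ℕ) (hs : ∀ p ∈ s, p.Prime) :
    Nat.totient (∏ p ∈ s, p) = ∏ p ∈ s, (p - 1) := by
  classical
  induction s using Finset.induction_on with
  | empty => simp
  | insert a s ha ih =>
    rw [prod_insert ha, prod_insert ha, Nat.totient_mul, ih (fun p hp => hs p (mem_insert_of_mem hp)),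
      Nat.totient_prime (hs a (mem_insert_self _ _))]
    apply Nat.Coprime.prod_right
    intro p hp
    rw [Nat.coprime_primes (hs a (mem_insert_self _ _)) (hs p (mem_insert_of_mem hp))]
    rintro rfl
    exact ha hp

/-- `k / φ(k) = ∑_{d ∣ k} μ²(d)/φ(d)` -/
theorem ari_div_totient (k : ℕ) (hk : 1 ≤ k) :
    (k : ℝ) / Nat.totient k = ∑ d ∈ k.divisors.filter Squarefree, (1 : ℝ) / Nat.totient d := by
  have hk0 : k ≠ 0 := by omega
  have htot : (0 : ℝ) < Nat.totient k := by exact_mod_cast Nat.totient_pos.2 hk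
  have h1 : (k : ℝ) / Nat.totient k = ∏ p ∈ k.primeFactors, (1 + 1 / ((p : ℝ) - 1)) := by
    have h2 := Nat.totient_mul_prod_primeFactors k
    have h3 : (Nat.totient k : ℝ) * ∏ p ∈ k.primeFactors, (p : ℝ) =
        k * ∏ p ∈ k.primeFactors, ((p : ℝ) - 1) := by
      have : ((Nat.totient k * ∏ p ∈ k.primeFactors, p : ℕ) : ℝ) =
          ((k * ∏ p ∈ k.primeFactors, (p - 1) : ℕ) : ℝ) := by rw [h2]
      push_cast at this
      rw [this]
      congr 1
      apply prod_congr rfl
      intro p hp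
      have := (Nat.prime_of_mem_primeFactors hp).one_le
      push_cast [Nat.cast_sub this]
      ring
    have h4 : ∏ p ∈ k.primeFactors, ((p : ℝ) - 1) ≠ 0 := by
      rw [prod_ne_zero_iff]
      intro p hp
      have : (1 : ℝ) < p := by exact_mod_cast (Nat.prime_of_mem_primeFactors hp).one_lt
      linarith
    have h5 : ∏ p ∈ k.primeFactors, (1 + 1 / ((p : ℝ) - 1)) =
        (∏ p ∈ k.primeFactors, (p : ℝ)) / ∏ p ∈ k.primeFactors, ((p : ℝ) - 1) := by
      rw [← prod_div_distrib]
      apply prod_congr rfl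
      intro p hp
      have : (1 : ℝ) < p := by exact_mod_cast (Nat.prime_of_mem_primeFactors hp).one_lt
      have h6 : (p : ℝ) - 1 ≠ 0 := by linarith
      field_simp
      ring
    rw [h5, div_eq_div_iff htot.ne' h4]
    linarith
  rw [h1, prod_one_add]
  rw [Nat.sum_divisors_filter_squarefree hk0]
  have hpf : (UniqueFactorizationMonoid.normalizedFactors k).toFinset = k.primeFactors := by
    rw [Nat.factors_eq]
    ext p
    simp [Nat.mem_primeFactorsList, Nat.mem_primeFactors]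
  rw [hpf]
  apply sum_congr rfl
  · intro s hs
    rw [mem_powerset] at hs
    have hp : ∀ p ∈ s, p.Prime := fun p hp => Nat.prime_of_mem_primeFactors (hs hp)
    rw [Finset.prod_val] 
    rw [show (s.prod id) = ∏ p ∈ s, p from rfl, ari_totient_prod s hp]
    push_cast
    rw [one_div, ← prod_inv_distrib]
    apply prod_congr rfl
    intro p hpp
    have := (hp p hpp).one_le
    rw [Nat.cast_sub this]
    simp

lemma ari_prod_low (S : Finset ℕ) (hS : ∀ p ∈ S, 2 ≤ p) :
    (1 : ℚ) / (S.card + 1) ≤ ∏ p ∈ S, (1 - (p : ℚ)⁻¹) := by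
  induction S using Finset.induction_on_max with
  | empty => simp
  | insert a s hmax ih =>
    have ha : a ∉ s := fun h => (hmax a h).false
    rw [prod_insert ha, card_insert_of_notMem ha]
    have h1 := ih fun p hp => hS p (mem_insert_of_mem hp)
    have h2 : 2 ≤ a := hS a (mem_insert_self _ _)
    have h3 : s.card ≤ a - 2 := by
      have : s ⊆ Ico 2 a := by
        intro p hp
        rw [mem_Ico]
        exact ⟨hS p (mem_insert_of_mem hp), hmax p hp⟩
      have := card_le_card this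
      rwa [Nat.card_Ico] at this
    have h4 : (s.card : ℚ) + 2 ≤ a := by
      exact_mod_cast (by omega : s.card + 2 ≤ a)
    have hc : (0 : ℚ) ≤ s.card := Nat.cast_nonneg _
    have h5 : (a : ℚ)⁻¹ ≤ 1 / (s.card + 2) := by
      rw [← one_div]
      exact one_div_le_one_div_of_le (by linarith) h4
    have h6 : ((s.card : ℚ) + 1) / (s.card + 2) ≤ 1 - (a : ℚ)⁻¹ := by
      have : ((s.card : ℚ) + 1) / (s.card + 2) = 1 - 1 / (s.card + 2) := by
        field_simp
        ring
      rw [this]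
      linarith
    calc (1 : ℚ) / ((s.card + 1 : ℕ) + 1) =
        ((s.card : ℚ) + 1) / (s.card + 2) * (1 / (s.card + 1)) := by
          push_cast
          field_simp
          ring
      _ ≤ (1 - (a : ℚ)⁻¹) * ∏ p ∈ s, (1 - (p : ℚ)⁻¹) := by
          apply mul_le_mul h6 h1 (by positivity)
          refine le_trans (by positivity) h6

lemma ari_phi_low (q : ℕ) (hq : 1 ≤ q) : (q : ℝ) ≤ (1 + 2 * Real.log q) * Nat.totient q := by
  have h1 := ari_prod_low q.primeFactors (fun p hp => (Nat.prime_of_mem_primeFactors hp).two_le)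
  have h2 := Nat.totient_eq_mul_prod_factors q
  have h3 : (q : ℚ) ≤ (q.primeFactors.card + 1) * Nat.totient q := by
    rw [h2]
    rw [div_le_iff₀ (by positivity)] at h1
    have h0 : (0 : ℚ) ≤ q := Nat.cast_nonneg _
    nlinarith
  have h4 : (q : ℝ) ≤ (q.primeFactors.card + 1) * Nat.totient q := by exact_mod_cast h3
  have h5 : (q.primeFactors.card : ℝ) ≤ 2 * Real.log q := by
    have h8 : 2 ^ q.primeFactors.card ≤ q := by
      calc 2 ^ q.primeFactors.card = ∏ p ∈ q.primeFactors, 2 := by rw [prod_const]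
        _ ≤ ∏ p ∈ q.primeFactors, p :=
          prod_le_prod' fun p hp => (Nat.prime_of_mem_primeFactors hp).two_le
        _ ≤ q := Nat.le_of_dvd (by omega) (Nat.prod_primeFactors_dvd q)
    have q1 : (2 : ℝ) ^ q.primeFactors.card ≤ q := by exact_mod_cast h8
    have q2 := Real.log_le_log (by positivity) q1
    rw [Real.log_pow] at q2
    have q3 : (1 : ℝ) / 2 ≤ Real.log 2 := by linarith [Real.log_two_gt_d9]
    nlinarith [(Nat.cast_nonneg q.primeFactors.card : (0 : ℝ) ≤ (q.primeFactors.card : ℝ))]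
  refine h4.trans ?_
  apply mul_le_mul_of_nonneg_right _ (Nat.cast_nonneg _)
  linarith

/-- W -/
theorem w_bd : S_W := by
  intro m hm
  have htot : (0 : ℝ) < Nat.totient m := by exact_mod_cast Nat.totient_pos.2 hm
  unfold w
  constructor
  · rw [le_div_iff₀ htot, one_mul]
    exact_mod_cast Nat.totient_le m
  · rw [div_le_iff₀ htot]
    exact ari_phi_low m hm

/-- the sum restricted to the divisors up to `R` -/
lemma ari_w_ge (m R : ℕ) (hm : 1 ≤ m) :
    ∑ e ∈ (Icc 1 R).filter Squarefree, (if e ∣ m then (1 : ℝ) / Nat.totient e else 0) ≤ w m := by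
  unfold w
  rw [ari_div_totient m hm, ← sum_filter]
  apply sum_le_sum_of_subset_of_nonneg
  · intro e he
    simp only [mem_filter, mem_Icc, Nat.mem_divisors] at he ⊢
    exact ⟨⟨he.2, by omega⟩, he.1.2⟩
  · intros
    positivity

lemma ari_w_eq (m R : ℕ) (hm : 1 ≤ m) (hR : m ≤ R) :
    w m = ∑ e ∈ (Icc 1 R).filter Squarefree, (if e ∣ m then (1 : ℝ) / Nat.totient e else 0) := by
  unfold w
  rw [ari_div_totient m hm, ← sum_filter]
  apply sum_congr _ (fun _ _ => rfl)
  ext e
  simp only [mem_filter, mem_Icc, Nat.mem_divisors]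
  constructor
  · rintro ⟨⟨h1, h2⟩, h3⟩
    have := Nat.le_of_dvd (by omega) h1
    have h4 : e ≠ 0 := by rintro rfl; simp at h1; omega
    exact ⟨⟨⟨by omega, by omega⟩, h3⟩, h1⟩
  · rintro ⟨⟨⟨h1, h2⟩, h3⟩, h4⟩
    exact ⟨⟨h4, by omega⟩, h3⟩

lemma ari_count (e M : ℕ) (he : 1 ≤ e) :
    (M : ℝ) / e - 1 ≤ (((Ioc M (2 * M)).filter (fun m => e ∣ m)).card : ℝ) := by
  have h1 : ((Ioc M (2 * M)).filter (fun m => e ∣ m)).card + M / e = 2 * M / e := by
    rw [← Nat.Ioc_filter_dvd_card_eq_div (2 * M) e, ← Nat.Ioc_filter_dvd_card_eq_div M e]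
    rw [← Ioc_union_Ioc_eq_Ioc (Nat.zero_le M) (by omega : M ≤ 2 * M), filter_union,
      card_union_of_disjoint, add_comm]
    apply disjoint_filter_filter
    rw [disjoint_left]
    intro a h1 h2
    rw [mem_Ioc] at h1 h2
    omega
  have he0 : (0 : ℝ) < e := by exact_mod_cast he
  have h2 : ((M / e : ℕ) : ℝ) ≤ (M : ℝ) / e := Nat.cast_div_le
  have h3 : ((2 * M : ℕ) : ℝ) / e < ((2 * M / e : ℕ) : ℝ) + 1 := by
    rw [div_lt_iff₀ he0]
    have := Nat.lt_mul_div_succ (2 * M) (by omega : 0 < e)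
    have h4 : ((2 * M : ℕ) : ℝ) < (e : ℝ) * (((2 * M / e : ℕ) : ℝ) + 1) := by exact_mod_cast this
    linarith
  have h5 : (((Ioc M (2 * M)).filter (fun m => e ∣ m)).card : ℝ) + ((M / e : ℕ) : ℝ) =
      ((2 * M / e : ℕ) : ℝ) := by exact_mod_cast h1
  have h6 : ((2 * M : ℕ) : ℝ) / e = (M : ℝ) / e + (M : ℝ) / e := by push_cast; ring
  linarith

/-- SUMW -/
theorem sumw : S_SUMW := by
  intro M R hRM
  have h1 : ∑ m ∈ Ioc M (2 * M), ∑ e ∈ (Icc 1 R).filter Squarefree,
      (if e ∣ m then (1 : ℝ) / Nat.totient e else 0) ≤ ∑ m ∈ Ioc M (2 * M), w m := by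
    apply sum_le_sum
    intro m hm
    rw [mem_Ioc] at hm
    exact ari_w_ge m R (by omega)
  refine le_trans ?_ h1
  rw [sum_comm]
  have h2 : ∀ e ∈ (Icc 1 R).filter Squarefree,
      (M : ℝ) * (1 / ((e : ℝ) * (Nat.totient e : ℝ))) - 1 ≤
      ∑ m ∈ Ioc M (2 * M), (if e ∣ m then (1 : ℝ) / Nat.totient e else 0) := by
    intro e he
    rw [mem_filter, mem_Icc] at he
    rw [← sum_filter, sum_const, nsmul_eq_mul]
    have h3 := ari_count e M he.1.1
    have hφ : (1 : ℝ) ≤ Nat.totient e := by exact_mod_cast Nat.totient_pos.2 (by omega)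
    have he0 : (0 : ℝ) < e := by exact_mod_cast (by omega : 0 < e)
    calc (M : ℝ) * (1 / ((e : ℝ) * (Nat.totient e : ℝ))) - 1
        ≤ (M : ℝ) * (1 / ((e : ℝ) * (Nat.totient e : ℝ))) - 1 / Nat.totient e := by
          have : (1 : ℝ) / Nat.totient e ≤ 1 := by
            rw [div_le_one (by linarith)]; exact hφ
          linarith
      _ = ((M : ℝ) / e - 1) * (1 / Nat.totient e) := by
          field_simp
      _ ≤ _ := by gcongr
  refine le_trans ?_ (sum_le_sum h2)
  rw [sum_sub_distrib, ← mul_sum, sum_const, nsmul_eq_mul, mul_one]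
  have h4 : (((Icc 1 R).filter Squarefree).card : ℝ) ≤ R := by
    have h5 : ((Icc 1 R).filter Squarefree).card ≤ (Icc 1 R).card := card_filter_le _ _
    rw [Nat.card_Icc, Nat.add_sub_cancel] at h5
    exact_mod_cast h5
  unfold cR
  linarith [mul_comm (M : ℝ) (∑ e ∈ (Icc 1 R).filter Squarefree, 1 / ((e : ℝ) * (Nat.totient e : ℝ)))]

lemma ari_sum_w (n R : ℕ) (h : n ≤ R) : ∑ d ∈ Ioc 0 n, w d ≤ n * cR R := by
  have h1 : ∑ d ∈ Ioc 0 n, w d = ∑ d ∈ Ioc 0 n, ∑ e ∈ (Icc 1 R).filter Squarefree,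
      (if e ∣ d then (1 : ℝ) / Nat.totient e else 0) := by
    apply sum_congr rfl
    intro d hd
    rw [mem_Ioc] at hd
    exact ari_w_eq d R (by omega) (by omega)
  rw [h1, sum_comm]
  unfold cR
  rw [mul_sum]
  apply sum_le_sum
  intro e he
  rw [mem_filter, mem_Icc] at he
  rw [← sum_filter, sum_const, nsmul_eq_mul, Nat.Ioc_filter_dvd_card_eq_div]
  have hφ : (1 : ℝ) ≤ Nat.totient e := by exact_mod_cast Nat.totient_pos.2 (by omega)
  have he0 : (0 : ℝ) < e := by exact_mod_cast (by omega : 0 < e)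
  have h2 : ((n / e : ℕ) : ℝ) ≤ (n : ℝ) / e := Nat.cast_div_le
  calc ((n / e : ℕ) : ℝ) * (1 / Nat.totient e) ≤ ((n : ℝ) / e) * (1 / Nat.totient e) := by gcongr
    _ = n * (1 / ((e : ℝ) * (Nat.totient e : ℝ))) := by field_simp

lemma ari_cR_nonneg (R : ℕ) : 0 ≤ cR R := by
  unfold cR
  positivity

/-- SUMD -/
theorem sumd : S_SUMD := by
  intro J R
  have h1 : ∀ j ∈ Ioc J (J + R), ∑ j' ∈ Ioc j (J + R), w (j' - j) ≤ ((J + R - j : ℕ) : ℝ) * cR R := by
    intro j hj
    rw [mem_Ioc] at hj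
    have h2 : ∑ j' ∈ Ioc j (J + R), w (j' - j) = ∑ d ∈ Ioc 0 (J + R - j), w d := by
      apply sum_nbij' (fun j' => j' - j) (fun d => d + j)
      · intro a ha
        rw [mem_Ioc] at ha ⊢
        omega
      · intro a ha
        rw [mem_Ioc] at ha ⊢
        omega
      · intro a ha
        rw [mem_Ioc] at ha
        show a - j + j = a
        omega
      · intro a ha
        show a + j - j = a
        omega
      · intro a ha
        rfl
    rw [h2]
    exact ari_sum_w _ R (by omega)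
  have h3 : ∑ j ∈ Ioc J (J + R), ((J + R - j : ℕ) : ℝ) = ∑ t ∈ range R, (t : ℝ) := by
    apply sum_nbij' (fun j => J + R - j) (fun t => J + R - t)
    · intro a ha
      rw [mem_Ioc] at ha
      rw [mem_range]
      omega
    · intro a ha
      rw [mem_range] at ha
      rw [mem_Ioc]
      omega
    · intro a ha
      rw [mem_Ioc] at ha
      show J + R - (J + R - a) = a
      omega
    · intro a ha
      rw [mem_range] at ha
      show J + R - (J + R - a) = a
      omega
    · intro a ha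
      rfl
  have h4 : ∑ t ∈ range R, (t : ℝ) ≤ (R : ℝ) ^ 2 / 2 := by
    clear h1 h3
    induction R with
    | zero => simp
    | succ n ih =>
      rw [sum_range_succ]
      push_cast
      nlinarith
  calc 2 * ∑ j ∈ Ioc J (J + R), ∑ j' ∈ Ioc j (J + R), w (j' - j)
      ≤ 2 * ∑ j ∈ Ioc J (J + R), ((J + R - j : ℕ) : ℝ) * cR R := by
        gcongr with j hj
        exact h1 j hj
    _ = 2 * ((∑ t ∈ range R, (t : ℝ)) * cR R) := by rw [← sum_mul, h3]
    _ ≤ 2 * ((R : ℝ) ^ 2 / 2 * cR R) := by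
        have := ari_cR_nonneg R
        gcongr
    _ = (R : ℝ) ^ 2 * cR R := by ring

end Pool.Agent.K9h44.SC
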