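import Pool.Agent.K9h44.SC.Stm

/-! Leaf COPZ (helper72): `S_COP` and `S_Z`. -/

set_option autoImplicit false

namespace Pool.Agent.K9h44.SC

open Finset

lemma cz_moebius_indicator (g : ℕ) :
    ∑ d ∈ g.divisors, (ArithmeticFunction.moebius d : ℤ) = if g = 1 then 1 else 0 := by
  rw [← ArithmeticFunction.coe_mul_zeta_apply, ArithmeticFunction.moebius_mul_coe_zeta]
  rw [ArithmeticFunction.one_apply]

lemma cz_totient_moebius {n : ℕ} (hn : n ≠ 0) :
    ∑ d ∈ n.divisors, (ArithmeticFunction.moebius d : ℝ) / d = (Nat.totient n : ℝ) / n := by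
  have h1 : ∀ n : ℕ, n > 0 → ∑ i ∈ n.divisors, (Nat.totient i : ℝ) = (n : ℝ) := by
    intro n _
    exact_mod_cast Nat.sum_totient n
  have h2 := (ArithmeticFunction.sum_eq_iff_sum_mul_moebius_eq (f := fun i => (Nat.totient i : ℝ))
    (g := fun i => (i : ℝ))).mp h1 n (Nat.pos_of_ne_zero hn)
  have hn' : (n : ℝ) ≠ 0 := by exact_mod_cast hn
  rw [eq_div_iff hn', ← h2, Finset.sum_mul, Nat.sum_divisorsAntidiagonal
    (f := fun x y => (ArithmeticFunction.moebius x : ℝ) * (y : ℝ))]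
  apply Finset.sum_congr rfl
  intro d hd
  have hdn := Nat.dvd_of_mem_divisors hd
  have hd0 : d ≠ 0 := by
    rintro rfl
    exact hn (Nat.eq_zero_of_zero_dvd hdn)
  have hd0' : (d : ℝ) ≠ 0 := by exact_mod_cast hd0
  rw [Nat.cast_div hdn hd0']
  field_simp

lemma cz_card_dvd (a H d : ℕ) :
    (((Ioc a (a + H)).filter fun c => d ∣ c).card : ℝ) = ((a + H) / d : ℕ) - (a / d : ℕ) := by
  have h1 := Nat.Ioc_filter_dvd_card_eq_div (a + H) d
  have h2 := Nat.Ioc_filter_dvd_card_eq_div a d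
  have h3 : (Ioc 0 (a + H)).filter (fun c => d ∣ c) =
      (Ioc 0 a).filter (fun c => d ∣ c) ∪ (Ioc a (a + H)).filter (fun c => d ∣ c) := by
    rw [← filter_union, Ioc_union_Ioc_eq_Ioc (Nat.zero_le _) (Nat.le_add_right _ _)]
  have h4 : Disjoint ((Ioc 0 a).filter (fun c => d ∣ c)) ((Ioc a (a + H)).filter (fun c => d ∣ c)) := by
    rw [disjoint_left]
    intro x hx hy
    rw [mem_filter, mem_Ioc] at hx hy
    omega
  rw [h3, card_union_of_disjoint h4, h2] at h1
  rw [← h1]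
  push_cast
  ring

lemma cz_floor (a H d : ℕ) (hd : 1 ≤ d) :
    |(((a + H) / d : ℕ) : ℝ) - ((a / d : ℕ) : ℝ) - (H : ℝ) / d| ≤ 1 := by
  have hd0 : (0 : ℝ) < d := by exact_mod_cast hd
  have h1 : (((a + H) / d : ℕ) : ℝ) ≤ ((a : ℝ) + H) / d := by
    have := @Nat.cast_div_le ℝ _ _ _ (a + H) d
    push_cast at this
    exact this
  have h2 : ((a / d : ℕ) : ℝ) ≤ (a : ℝ) / d := Nat.cast_div_le
  have h3 : ((a : ℝ) + H) / d < (((a + H) / d : ℕ) : ℝ) + 1 := by
    rw [div_lt_iff₀ hd0]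
    have := Nat.lt_div_mul_add hd (a := a + H)
    have h4 : ((a + H : ℕ) : ℝ) < (((a + H) / d * d + d : ℕ) : ℝ) := by exact_mod_cast this
    push_cast at h4
    push_cast
    linarith
  have h4 : (a : ℝ) / d < ((a / d : ℕ) : ℝ) + 1 := by
    rw [div_lt_iff₀ hd0]
    have := Nat.lt_div_mul_add hd (a := a)
    have h4 : ((a : ℕ) : ℝ) < ((a / d * d + d : ℕ) : ℝ) := by exact_mod_cast this
    push_cast at h4
    linarith
  rw [add_div] at h1 h3
  rw [abs_le]
  constructor <;> linarith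

theorem cop : S_COP := by
  classical
  intro m a H hm
  have hm0 : m ≠ 0 := by omega
  have h1 : (((Ioc a (a + H)).filter (fun c => c.Coprime m)).card : ℝ) =
      ∑ d ∈ m.divisors, (ArithmeticFunction.moebius d : ℝ) *
        (((Ioc a (a + H)).filter fun c => d ∣ c).card : ℝ) := by
    rw [card_filter]
    push_cast
    have e1 : ∀ c ∈ Ioc a (a + H), (if c.Coprime m then (1 : ℝ) else 0) =
        ∑ d ∈ m.divisors, if d ∣ c then (ArithmeticFunction.moebius d : ℝ) else 0 := by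
      intro c hc
      rw [← sum_filter]
      have e2 : m.divisors.filter (fun d => d ∣ c) = (Nat.gcd c m).divisors := by
        ext d
        rw [mem_filter, Nat.mem_divisors, Nat.mem_divisors, Nat.dvd_gcd_iff]
        constructor
        · rintro ⟨⟨h1, _⟩, h2⟩
          exact ⟨⟨h2, h1⟩, fun h => hm0 (Nat.eq_zero_of_gcd_eq_zero_right h)⟩
        · rintro ⟨⟨h1, h2⟩, _⟩
          exact ⟨⟨h2, hm0⟩, h1⟩
      rw [e2]
      have e3 := cz_moebius_indicator (Nat.gcd c m)
      have e4 : (∑ d ∈ (Nat.gcd c m).divisors, (ArithmeticFunction.moebius d : ℝ)) =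
          ((∑ d ∈ (Nat.gcd c m).divisors, (ArithmeticFunction.moebius d : ℤ) : ℤ) : ℝ) := by
        push_cast
        rfl
      rw [e4, e3]
      unfold Nat.Coprime
      split_ifs <;> simp
    rw [sum_congr rfl e1, sum_comm]
    refine sum_congr rfl fun d _ => ?_
    rw [← sum_filter, sum_const, nsmul_eq_mul, mul_comm]
  rw [h1]
  have h2 : (H : ℝ) * (Nat.totient m : ℝ) / m =
      ∑ d ∈ m.divisors, (ArithmeticFunction.moebius d : ℝ) * ((H : ℝ) / d) := by
    rw [mul_div_assoc, ← cz_totient_moebius hm0, mul_sum]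
    refine sum_congr rfl fun d _ => ?_
    ring
  have h3 : (m.divisors.card : ℝ) = ∑ d ∈ m.divisors, (1 : ℝ) := by
    rw [sum_const, nsmul_eq_mul, mul_one]
  rw [h2, h3, ← sum_add_distrib]
  refine sum_le_sum fun d hd => ?_
  have hd1 : 1 ≤ d := Nat.pos_of_mem_divisors hd
  rw [cz_card_dvd]
  have h4 := cz_floor a H d hd1
  have h5 : |(ArithmeticFunction.moebius d : ℝ)| ≤ 1 := by
    have := ArithmeticFunction.abs_moebius_le_one (n := d)
    exact_mod_cast this
  have h6 : |(ArithmeticFunction.moebius d : ℝ) *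
      ((((a + H) / d : ℕ) : ℝ) - ((a / d : ℕ) : ℝ) - (H : ℝ) / d)| ≤ 1 := by
    rw [abs_mul]
    exact mul_le_one₀ h5 (abs_nonneg _) h4
  have h7 := (abs_le.1 h6).2
  have h8 : (ArithmeticFunction.moebius d : ℝ) *
      ((((a + H) / d : ℕ) : ℝ) - ((a / d : ℕ) : ℝ) - (H : ℝ) / d) =
      (ArithmeticFunction.moebius d : ℝ) * ((((a + H) / d : ℕ) : ℝ) - ((a / d : ℕ) : ℝ)) -
      (ArithmeticFunction.moebius d : ℝ) * ((H : ℝ) / d) := by ring
  rw [h8] at h7
  linarith

/-! ### bounds for `w` -/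

lemma cz_prod_low (S : Finset ℕ) (hS : ∀ p ∈ S, 2 ≤ p) :
    (1 : ℚ) / (S.card + 1) ≤ ∏ p ∈ S, (1 - (p : ℚ)⁻¹) := by
  induction S using Finset.induction_on_max with
  | empty => simp
  | insert a s hmax ih =>
    have ha : a ∉ s := fun h => (hmax a h).false
    rw [prod_insert ha, card_insert_of_notMem ha]
    have h1 := ih fun p hp => hS p (mem_insert_of_mem hp)
    have h2 : 2 ≤ a := hS a (mem_insert_self _ _)
    have h3 : s.card ≤ a - 2 := by
      have : s ⊆ Ico 2 a := by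
        intro p hp
        rw [mem_Ico]
        exact ⟨hS p (mem_insert_of_mem hp), hmax p hp⟩
      have := card_le_card this
      rwa [Nat.card_Ico] at this
    have h4 : (s.card : ℚ) + 2 ≤ a := by
      exact_mod_cast (by omega : s.card + 2 ≤ a)
    have hc : (0 : ℚ) ≤ s.card := Nat.cast_nonneg _
    have h5 : (a : ℚ)⁻¹ ≤ 1 / (s.card + 2) := by
      rw [← one_div]
      exact one_div_le_one_div_of_le (by linarith) h4
    have h6 : ((s.card : ℚ) + 1) / (s.card + 2) ≤ 1 - (a : ℚ)⁻¹ := by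
      have : ((s.card : ℚ) + 1) / (s.card + 2) = 1 - 1 / (s.card + 2) := by
        field_simp
        ring
      rw [this]
      linarith
    calc (1 : ℚ) / ((s.card + 1 : ℕ) + 1) =
        ((s.card : ℚ) + 1) / (s.card + 2) * (1 / (s.card + 1)) := by
          push_cast
          field_simp
          ring
      _ ≤ (1 - (a : ℚ)⁻¹) * ∏ p ∈ s, (1 - (p : ℚ)⁻¹) := by
          refine mul_le_mul h6 h1 (by positivity) ?_
          have : (0 : ℚ) ≤ ((s.card : ℚ) + 1) / (s.card + 2) := by positivity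
          linarith

lemma cz_phi_low (q : ℕ) (hq : 1 ≤ q) : (q : ℝ) ≤ (1 + 2 * Real.log q) * Nat.totient q := by
  have h1 := cz_prod_low q.primeFactors (fun p hp => (Nat.prime_of_mem_primeFactors hp).two_le)
  have h2 := Nat.totient_eq_mul_prod_factors q
  have h3 : (q : ℚ) ≤ (q.primeFactors.card + 1) * Nat.totient q := by
    rw [h2]
    rw [div_le_iff₀ (by positivity)] at h1
    have h0 : (0 : ℚ) ≤ q := Nat.cast_nonneg _
    nlinarith
  have h4 : (q : ℝ) ≤ (q.primeFactors.card + 1) * Nat.totient q := by exact_mod_cast h3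
  have h5 : (q.primeFactors.card : ℝ) ≤ 2 * Real.log q := by
    have h8 : 2 ^ q.primeFactors.card ≤ q := by
      calc 2 ^ q.primeFactors.card = ∏ p ∈ q.primeFactors, 2 := by rw [prod_const]
        _ ≤ ∏ p ∈ q.primeFactors, p :=
          prod_le_prod' fun p hp => (Nat.prime_of_mem_primeFactors hp).two_le
        _ ≤ q := Nat.le_of_dvd (by omega) (Nat.prod_primeFactors_dvd q)
    have q1 : (2 : ℝ) ^ q.primeFactors.card ≤ q := by exact_mod_cast h8
    have q2 := Real.log_le_log (by positivity) q1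
    rw [Real.log_pow] at q2
    have q3 : (1 : ℝ) / 2 ≤ Real.log 2 := by linarith [Real.log_two_gt_d9]
    nlinarith [(Nat.cast_nonneg q.primeFactors.card : (0 : ℝ) ≤ (q.primeFactors.card : ℝ))]
  refine h4.trans ?_
  apply mul_le_mul_of_nonneg_right _ (Nat.cast_nonneg _)
  linarith

lemma cz_w_le (m : ℕ) (hm : 1 ≤ m) : w m ≤ 1 + 2 * Real.log m := by
  unfold w
  have h : (0 : ℝ) < Nat.totient m := by exact_mod_cast Nat.totient_pos.2 hm
  rw [div_le_iff₀ h]
  exact cz_phi_low m hm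

lemma cz_w_nonneg (m : ℕ) : 0 ≤ w m := by unfold w; positivity

/-! ### the divisor sum -/

lemma cz_harm (Q : ℕ) (h : 1 ≤ Q) : ∑ q ∈ Icc 1 Q, 1 / (q : ℝ) ≤ 1 + Real.log Q := by
  have h1 := harmonic_le_one_add_log Q
  have h2 : ((harmonic Q : ℚ) : ℝ) = ∑ q ∈ Icc 1 Q, 1 / (q : ℝ) := by
    rw [harmonic_eq_sum_Icc]
    push_cast
    refine sum_congr rfl fun q _ => ?_
    rw [one_div]
  rw [← h2]
  exact h1

lemma cz_tau_sum (Y : ℕ) (hY : 1 ≤ Y) :
    ∑ n ∈ Icc 1 Y, (n.divisors.card : ℝ) ≤ Y * (1 + Real.log Y) := by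
  classical
  have e1 : ∀ n ∈ Icc 1 Y, (n.divisors.card : ℝ) = ∑ d ∈ Icc 1 Y, if d ∣ n then (1 : ℝ) else 0 := by
    intro n hn
    rw [mem_Icc] at hn
    rw [← sum_filter, sum_const, nsmul_eq_mul, mul_one]
    congr 2
    ext d
    rw [Nat.mem_divisors, mem_filter, mem_Icc]
    constructor
    · rintro ⟨h1, h2⟩
      exact ⟨⟨Nat.pos_of_dvd_of_pos h1 (by omega), (Nat.le_of_dvd (by omega) h1).trans hn.2⟩, h1⟩
    · rintro ⟨_, h1⟩
      exact ⟨h1, by omega⟩
  rw [sum_congr rfl e1, sum_comm]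
  have e2 : ∀ d ∈ Icc 1 Y, ∑ n ∈ Icc 1 Y, (if d ∣ n then (1 : ℝ) else 0) ≤ Y * (1 / (d : ℝ)) := by
    intro d _
    rw [← sum_filter, sum_const, nsmul_eq_mul, mul_one, mul_one_div]
    have := Nat.Ioc_filter_dvd_card_eq_div Y d
    have e3 : Icc 1 Y = Ioc 0 Y := rfl
    rw [e3, this]
    exact Nat.cast_div_le
  refine (sum_le_sum e2).trans ?_
  rw [← mul_sum]
  exact mul_le_mul_of_nonneg_left (cz_harm Y hY) (Nat.cast_nonneg _)

lemma cz_large : ∃ L₀ : ℝ, 0 < L₀ ∧ ∀ L : ℝ, L₀ ≤ L →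
    (1 + 2 * (L + 1)) ^ 2 * (2 * (1 + (L + 1))) ≤ L ^ 4 := by
  refine ⟨100, by norm_num, fun L hL => ?_⟩
  have h1 : 1 + 2 * (L + 1) ≤ 3 * L := by linarith
  have h2 : 2 * (1 + (L + 1)) ≤ 3 * L := by linarith
  have h0 : 0 < L := by linarith
  calc (1 + 2 * (L + 1)) ^ 2 * (2 * (1 + (L + 1))) ≤ (3 * L) ^ 2 * (3 * L) := by
        apply mul_le_mul _ h2 (by positivity) (by positivity)
        exact pow_le_pow_left₀ (by positivity) h1 2
    _ = 27 * L ^ 3 := by ring
    _ ≤ L * L ^ 3 := by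
        apply mul_le_mul_of_nonneg_right _ (by positivity)
        linarith
    _ = L ^ 4 := by ring

theorem zz : S_Z := by
  classical
  obtain ⟨L₀, hL₀, hL⟩ := cz_large
  obtain ⟨M₀, hM₀⟩ : ∃ M₀ : ℕ, Real.exp L₀ ≤ M₀ := exists_nat_ge _
  refine ⟨M₀ + 1, fun M hM s H => ?_⟩
  have hM1 : 1 ≤ M := by omega
  have hMr : (1 : ℝ) ≤ M := by exact_mod_cast hM1
  have hlog : L₀ ≤ Real.log M := by
    rw [Real.le_log_iff_exp_le (by linarith)]
    exact hM₀.trans (by exact_mod_cast (by omega : M₀ ≤ M))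
  have hm2 : ∀ m ∈ Ioc M (2 * M), 1 ≤ m ∧ Real.log m ≤ Real.log M + 1 := by
    intro m hm
    rw [mem_Ioc] at hm
    refine ⟨by omega, ?_⟩
    have h1 : Real.log m ≤ Real.log (2 * M) := by
      apply Real.log_le_log
      · exact_mod_cast (by omega : 0 < m)
      · exact_mod_cast hm.2
    rw [Real.log_mul (by norm_num) (by linarith)] at h1
    have h2 : Real.log 2 < 1 := by linarith [Real.log_two_lt_d9]
    linarith
  have hlogM : 0 ≤ Real.log M := Real.log_nonneg hMr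
  have h1 : ∀ m ∈ Ioc M (2 * M),
      w m ^ 2 * (((Ioc (s m) (s m + H)).filter (fun c => c.Coprime m)).card : ℝ) ≤
      H * w m + (1 + 2 * (Real.log M + 1)) ^ 2 * (m.divisors.card : ℝ) := by
    intro m hm
    obtain ⟨hm1, hml⟩ := hm2 m hm
    have h2 := cop m (s m) H hm1
    have hφ : (0 : ℝ) < Nat.totient m := by exact_mod_cast Nat.totient_pos.2 hm1
    have hm0 : (0 : ℝ) < m := by exact_mod_cast hm1
    have h3 : w m ^ 2 * ((H : ℝ) * (Nat.totient m : ℝ) / m) = H * w m := by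
      unfold w
      field_simp
    have h4 : w m ^ 2 ≤ (1 + 2 * (Real.log M + 1)) ^ 2 := by
      apply pow_le_pow_left₀ (cz_w_nonneg m)
      have := cz_w_le m hm1
      linarith
    calc w m ^ 2 * (((Ioc (s m) (s m + H)).filter (fun c => c.Coprime m)).card : ℝ) ≤
        w m ^ 2 * ((H : ℝ) * (Nat.totient m : ℝ) / m + (m.divisors.card : ℝ)) :=
          mul_le_mul_of_nonneg_left h2 (sq_nonneg _)
      _ = H * w m + w m ^ 2 * (m.divisors.card : ℝ) := by rw [mul_add, h3]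
      _ ≤ _ := by
          have := mul_le_mul_of_nonneg_right h4 (Nat.cast_nonneg (α := ℝ) m.divisors.card)
          linarith
  refine (sum_le_sum h1).trans ?_
  rw [sum_add_distrib, ← mul_sum, ← mul_sum]
  have h5 : ∑ m ∈ Ioc M (2 * M), (m.divisors.card : ℝ) ≤ ∑ m ∈ Icc 1 (2 * M), (m.divisors.card : ℝ) := by
    apply sum_le_sum_of_subset_of_nonneg
    · intro m hm
      rw [mem_Ioc] at hm
      rw [mem_Icc]
      omega
    · intro m _ _
      exact Nat.cast_nonneg _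
  have h6 := cz_tau_sum (2 * M) (by omega)
  have h7 : Real.log ((2 * M : ℕ) : ℝ) ≤ Real.log M + 1 := by
    push_cast
    rw [Real.log_mul (by norm_num) (by linarith)]
    have h2 : Real.log 2 < 1 := by linarith [Real.log_two_lt_d9]
    linarith
  have h8 : ∑ m ∈ Ioc M (2 * M), (m.divisors.card : ℝ) ≤ M * (2 * (1 + (Real.log M + 1))) := by
    refine (h5.trans h6).trans ?_
    push_cast at h7 ⊢
    have : (2 * (M : ℝ)) * (1 + Real.log (2 * M)) ≤ (2 * (M : ℝ)) * (1 + (Real.log M + 1)) := by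
      apply mul_le_mul_of_nonneg_left _ (by linarith)
      linarith
    linarith
  have h9 := hL _ hlog
  have h10 : (1 + 2 * (Real.log M + 1)) ^ 2 * ∑ m ∈ Ioc M (2 * M), (m.divisors.card : ℝ) ≤
      M * Real.log M ^ 4 := by
    calc (1 + 2 * (Real.log M + 1)) ^ 2 * ∑ m ∈ Ioc M (2 * M), (m.divisors.card : ℝ) ≤
        (1 + 2 * (Real.log M + 1)) ^ 2 * (M * (2 * (1 + (Real.log M + 1)))) :=
          mul_le_mul_of_nonneg_left h8 (sq_nonneg _)
      _ = M * ((1 + 2 * (Real.log M + 1)) ^ 2 * (2 * (1 + (Real.log M + 1)))) := by ring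
      _ ≤ M * Real.log M ^ 4 := mul_le_mul_of_nonneg_left h9 (by linarith)
  linarith

end Pool.Agent.K9h44.SC
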