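import Pool.Agent.K9h44.SC.Stm

/-!
# Project SC: the variance
-/

set_option autoImplicit false

namespace Pool.Agent.K9h44.SC

open Finset Filter

open scoped ArithmeticFunction.vonMangoldt

theorem sum_shift (a H k : ℕ) (g : ℕ → ℝ) :
    ∑ c ∈ Ioc a (a + H), g (c + k) = ∑ n ∈ Ioc (a + k) (a + k + H), g n := by
  refine Finset.sum_nbij' (fun c => c + k) (fun n => n - k) ?_ ?_ ?_ ?_ ?_
  · intro c hc
    rw [mem_Ioc] at hc ⊢
    omega
  · intro n hn
    rw [mem_Ioc] at hn ⊢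
    omega
  · intro c _
    show c + k - k = c
    omega
  · intro n hn
    rw [mem_Ioc] at hn
    show n - k + k = n
    omega
  · intro c _
    rfl

theorem sum_shift_cop (a H j m : ℕ) (g : ℕ → ℝ) :
    ∑ c ∈ (Ioc a (a + H)).filter (fun c => c.Coprime m), g (c + j * m) =
      ∑ n ∈ (Ioc (a + j * m) (a + j * m + H)).filter (fun n => n.Coprime m), g n := by
  refine Finset.sum_nbij' (fun c => c + j * m) (fun n => n - j * m) ?_ ?_ ?_ ?_ ?_
  · intro c hc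
    rw [mem_filter, mem_Ioc] at hc ⊢
    refine ⟨by omega, ?_⟩
    rw [Nat.coprime_add_mul_right_left]
    exact hc.2
  · intro n hn
    rw [mem_filter, mem_Ioc] at hn ⊢
    refine ⟨by omega, ?_⟩
    have h1 : n = (n - j * m) + j * m := by omega
    have h2 := hn.2
    rw [h1, Nat.coprime_add_mul_right_left] at h2
    exact h2
  · intro c _
    show c + j * m - j * m = c
    omega
  · intro n hn
    rw [mem_filter, mem_Ioc] at hn
    show n - j * m + j * m = n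
    omega
  · intro c _
    rfl

theorem sq_sum_Ioc (J R : ℕ) (x : ℕ → ℝ) :
    (∑ j ∈ Ioc J (J + R), x j) ^ 2 = ∑ j ∈ Ioc J (J + R), x j ^ 2 +
      2 * ∑ j ∈ Ioc J (J + R), ∑ j' ∈ Ioc j (J + R), x j * x j' := by
  induction R with
  | zero => simp
  | succ R ih =>
    have h1 : ∀ g : ℕ → ℝ, ∀ k : ℕ, k ≤ J + R → ∑ j ∈ Ioc k (J + (R + 1)), g j =
        ∑ j ∈ Ioc k (J + R), g j + g (J + R + 1) := by
      intro g k hk
      rw [← add_assoc, Finset.sum_Ioc_succ_top hk]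
    rw [h1 _ J (by omega), h1 _ J (by omega), h1 _ J (by omega)]
    have h2 : ∑ j ∈ Ioc J (J + R), ∑ j' ∈ Ioc j (J + (R + 1)), x j * x j' =
        ∑ j ∈ Ioc J (J + R), ∑ j' ∈ Ioc j (J + R), x j * x j' +
          (∑ j ∈ Ioc J (J + R), x j) * x (J + R + 1) := by
      rw [Finset.sum_mul, ← Finset.sum_add_distrib]
      apply Finset.sum_congr rfl
      intro j hj
      rw [mem_Ioc] at hj
      rw [h1 _ j (by omega)]
    have h3 : Ioc (J + R + 1) (J + (R + 1)) = ∅ := by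
      rw [Finset.Ioc_eq_empty_iff]; omega
    rw [h2, h3, Finset.sum_empty]
    nlinarith [ih]

theorem card_pairs (J R : ℕ) :
    2 * ∑ j ∈ Ioc J (J + R), ∑ _j' ∈ Ioc j (J + R), (1 : ℝ) ≤ (R : ℝ) ^ 2 := by
  have h := sq_sum_Ioc J R (fun _ => 1)
  simp only [one_pow, mul_one] at h
  have h1 : ∑ j ∈ Ioc J (J + R), (1 : ℝ) = R := by
    rw [Finset.sum_const, Nat.card_Ioc]; simp
  rw [h1] at h
  have h2 : (0 : ℝ) ≤ R := Nat.cast_nonneg _
  linarith

theorem var_bound (M H J R : ℕ) (s : ℕ → ℕ) (l ε a b z : ℝ) (hl0 : 0 ≤ l) (hε : 0 ≤ ε) (hb : 0 ≤ b)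
    (hl : ∀ j ∈ Ioc J (J + R), ∀ m ∈ Ioc M (2 * M), ∀ n ∈ Ioc (s m + j * m) (s m + j * m + H), Λ n ≤ l)
    (h1 : ∀ j ∈ Ioc J (J + R),
      ∑ m ∈ Ioc M (2 * M), |∑ n ∈ Ioc (s m + j * m) (s m + j * m + H), Λ n - H| ≤ ε)
    (h2 : ∀ j ∈ Ioc J (J + R), ∀ j' ∈ Ioc j (J + R),
      ∑ m ∈ Ioc M (2 * M), ∑ n ∈ Ioc (s m + j * m) (s m + j * m + H), Λ n * Λ (n + (j' - j) * m) ≤
        w (j' - j) * (∑ m ∈ Ioc M (2 * M), ∑ n ∈ Ioc (s m + j * m) (s m + j * m + H), Λ n) + ε)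
    (hcop : ∀ j ∈ Ioc J (J + R), ∀ m ∈ Ioc M (2 * M),
      ∑ n ∈ (Ioc (s m + j * m) (s m + j * m + H)).filter (fun n => ¬ n.Coprime m), Λ n ≤ a)
    (hw : ∀ m ∈ Ioc M (2 * M), 0 ≤ w m ∧ w m ≤ b)
    (hz : ∑ m ∈ Ioc M (2 * M), w m ^ 2 *
      (((Ioc (s m) (s m + H)).filter (fun c => c.Coprime m)).card : ℝ) ≤
        H * (∑ m ∈ Ioc M (2 * M), w m) + z)
    (hsd : 2 * ∑ j ∈ Ioc J (J + R), ∑ j' ∈ Ioc j (J + R), w (j' - j) ≤ (R : ℝ) ^ 2 * cR R)
    (hsw : cR R * M - R ≤ ∑ m ∈ Ioc M (2 * M), w m) (ha : 0 ≤ a) :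
    ∑ m ∈ Ioc M (2 * M), ∑ c ∈ (Ioc (s m) (s m + H)).filter (fun c => c.Coprime m),
      (∑ j ∈ Ioc J (J + R), Λ (c + j * m) - R * w m) ^ 2 ≤
      R * (l * (M * H + ε)) + (R : ℝ) ^ 3 * H +
        (R : ℝ) ^ 2 * (cR R * ε + ε + 2 * b * (ε + M * a) + z) := by
  obtain ⟨S, hS⟩ : ∃ S : Finset ℕ, S = Ioc M (2 * M) := ⟨_, rfl⟩
  obtain ⟨JJ, hJJ⟩ : ∃ JJ : Finset ℕ, JJ = Ioc J (J + R) := ⟨_, rfl⟩
  have hΛ0 : ∀ n, 0 ≤ Λ n := fun n => ArithmeticFunction.vonMangoldt_nonneg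
  have hScard : (S.card : ℝ) = M := by
    rw [hS, Nat.card_Ioc]
    congr 1
    omega
  have hJcard : (JJ.card : ℝ) = R := by
    rw [hJJ, Nat.card_Ioc]
    congr 1
    omega
  obtain ⟨W, hW⟩ : ∃ W : ℝ, W = ∑ m ∈ Ioc M (2 * M), w m := ⟨_, rfl⟩
  rw [← hW] at hz hsw
  -- the first moments
  obtain ⟨X, hX⟩ : ∃ X : ℕ → ℝ, X = fun j => ∑ m ∈ Ioc M (2 * M),
    ∑ n ∈ Ioc (s m + j * m) (s m + j * m + H), Λ n := ⟨_, rfl⟩
  have hXup : ∀ j ∈ JJ, X j ≤ M * H + ε := by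
    intro j hj
    rw [hJJ] at hj
    have e1 := h1 j hj
    have e2 : X j - M * H = ∑ m ∈ Ioc M (2 * M), (∑ n ∈ Ioc (s m + j * m) (s m + j * m + H), Λ n - H) := by
      rw [Finset.sum_sub_distrib, Finset.sum_const, nsmul_eq_mul, ← hS, hScard, hX, hS]
    have e3 : X j - M * H ≤ ε := by
      rw [e2]
      exact (Finset.sum_le_sum fun m _ => le_abs_self _).trans e1
    linarith
  have hX0 : ∀ j, 0 ≤ X j := by
    intro j
    rw [hX]
    exact Finset.sum_nonneg fun m _ => Finset.sum_nonneg fun n _ => hΛ0 n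
  -- the second moment
  have hsec : ∑ m ∈ S, ∑ c ∈ Ioc (s m) (s m + H), (∑ j ∈ JJ, Λ (c + j * m)) ^ 2 ≤
      R * (l * (M * H + ε)) + (R : ℝ) ^ 2 * cR R * (M * H + ε) + (R : ℝ) ^ 2 * ε := by
    have e1 : ∑ m ∈ S, ∑ c ∈ Ioc (s m) (s m + H), (∑ j ∈ JJ, Λ (c + j * m)) ^ 2 =
        ∑ j ∈ JJ, ∑ m ∈ S, ∑ c ∈ Ioc (s m) (s m + H), Λ (c + j * m) ^ 2 +
        2 * ∑ j ∈ JJ, ∑ j' ∈ Ioc j (J + R), ∑ m ∈ S, ∑ c ∈ Ioc (s m) (s m + H),
          Λ (c + j * m) * Λ (c + j' * m) := by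
      have e2 : ∀ m ∈ S, ∑ c ∈ Ioc (s m) (s m + H), (∑ j ∈ JJ, Λ (c + j * m)) ^ 2 =
          ∑ j ∈ JJ, ∑ c ∈ Ioc (s m) (s m + H), Λ (c + j * m) ^ 2 +
          2 * ∑ j ∈ JJ, ∑ j' ∈ Ioc j (J + R), ∑ c ∈ Ioc (s m) (s m + H),
            Λ (c + j * m) * Λ (c + j' * m) := by
        intro m _
        have e3 : ∀ c ∈ Ioc (s m) (s m + H), (∑ j ∈ JJ, Λ (c + j * m)) ^ 2 =
            ∑ j ∈ JJ, Λ (c + j * m) ^ 2 +
              2 * ∑ j ∈ JJ, ∑ j' ∈ Ioc j (J + R), Λ (c + j * m) * Λ (c + j' * m) := by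
          intro c _
          rw [hJJ]
          exact sq_sum_Ioc J R (fun j => Λ (c + j * m))
        rw [Finset.sum_congr rfl e3, Finset.sum_add_distrib, Finset.sum_comm]
        congr 1
        rw [← Finset.mul_sum, Finset.sum_comm]
        congr 1
        apply Finset.sum_congr rfl
        intro j _
        rw [Finset.sum_comm]
      rw [Finset.sum_congr rfl e2, Finset.sum_add_distrib, Finset.sum_comm]
      congr 1
      rw [← Finset.mul_sum, Finset.sum_comm]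
      congr 1
      apply Finset.sum_congr rfl
      intro j _
      rw [Finset.sum_comm]
    rw [e1]
    have e4 : ∀ j ∈ JJ, ∑ m ∈ S, ∑ c ∈ Ioc (s m) (s m + H), Λ (c + j * m) ^ 2 ≤ l * (M * H + ε) := by
      intro j hj
      refine le_trans ?_ (mul_le_mul_of_nonneg_left (hXup j hj) hl0)
      rw [hX]
      simp only
      rw [Finset.mul_sum, hS]
      apply Finset.sum_le_sum
      intro m hm
      rw [sum_shift (s m) H (j * m) (fun n => Λ n ^ 2), Finset.mul_sum]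
      apply Finset.sum_le_sum
      intro n hn
      rw [sq]
      rw [hJJ] at hj
      exact mul_le_mul_of_nonneg_right (hl j hj m hm n hn) (hΛ0 n)
    have e5 : ∀ j ∈ JJ, ∀ j' ∈ Ioc j (J + R), ∑ m ∈ S, ∑ c ∈ Ioc (s m) (s m + H),
        Λ (c + j * m) * Λ (c + j' * m) ≤ w (j' - j) * (M * H + ε) + ε * 1 := by
      intro j hj j' hj'
      have hj2 := hj
      rw [hJJ] at hj2
      have e6 : ∑ m ∈ S, ∑ c ∈ Ioc (s m) (s m + H), Λ (c + j * m) * Λ (c + j' * m) =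
          ∑ m ∈ Ioc M (2 * M), ∑ n ∈ Ioc (s m + j * m) (s m + j * m + H), Λ n * Λ (n + (j' - j) * m) := by
        rw [hS]
        apply Finset.sum_congr rfl
        intro m _
        rw [← sum_shift (s m) H (j * m) (fun n => Λ n * Λ (n + (j' - j) * m))]
        apply Finset.sum_congr rfl
        intro c _
        rw [mem_Ioc] at hj'
        have : c + j * m + (j' - j) * m = c + j' * m := by
          rw [add_assoc, ← add_mul]
          congr 2
          omega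
        rw [this]
      rw [e6, mul_one]
      refine (h2 j hj2 j' hj').trans ?_
      have hw0 : 0 ≤ w (j' - j) := by unfold w; positivity
      have := mul_le_mul_of_nonneg_left (hXup j hj) hw0
      rw [hX] at this
      simp only at this
      linarith
    have e7 : 2 * ∑ j ∈ JJ, ∑ j' ∈ Ioc j (J + R), ∑ m ∈ S, ∑ c ∈ Ioc (s m) (s m + H),
        Λ (c + j * m) * Λ (c + j' * m) ≤
        (R : ℝ) ^ 2 * cR R * (M * H + ε) + (R : ℝ) ^ 2 * ε := by
      calc 2 * ∑ j ∈ JJ, ∑ j' ∈ Ioc j (J + R), ∑ m ∈ S, ∑ c ∈ Ioc (s m) (s m + H),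
            Λ (c + j * m) * Λ (c + j' * m) ≤
            2 * ∑ j ∈ JJ, ∑ j' ∈ Ioc j (J + R), (w (j' - j) * (M * H + ε) + ε * 1) := by
              apply mul_le_mul_of_nonneg_left _ (by norm_num)
              exact Finset.sum_le_sum fun j hj => Finset.sum_le_sum fun j' hj' => e5 j hj j' hj'
        _ = (2 * ∑ j ∈ JJ, ∑ j' ∈ Ioc j (J + R), w (j' - j)) * (M * H + ε) +
              ε * (2 * ∑ j ∈ JJ, ∑ _j' ∈ Ioc j (J + R), (1 : ℝ)) := by
              have hsplit : ∑ j ∈ JJ, ∑ j' ∈ Ioc j (J + R), (w (j' - j) * (M * H + ε) + ε * 1) =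
                  (∑ j ∈ JJ, ∑ j' ∈ Ioc j (J + R), w (j' - j)) * (M * H + ε) +
                  ε * ∑ j ∈ JJ, ∑ _j' ∈ Ioc j (J + R), (1 : ℝ) := by
                rw [Finset.sum_mul, Finset.mul_sum, ← Finset.sum_add_distrib]
                apply Finset.sum_congr rfl
                intro j _
                rw [Finset.sum_mul, Finset.mul_sum, ← Finset.sum_add_distrib]
              rw [hsplit]
              ring
        _ ≤ (R : ℝ) ^ 2 * cR R * (M * H + ε) + ε * (R : ℝ) ^ 2 := by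
              rw [hJJ]
              apply add_le_add
              · exact mul_le_mul_of_nonneg_right hsd (by positivity)
              · exact mul_le_mul_of_nonneg_left (card_pairs J R) hε
        _ = _ := by ring
    have e8 : ∑ j ∈ JJ, ∑ m ∈ S, ∑ c ∈ Ioc (s m) (s m + H), Λ (c + j * m) ^ 2 ≤
        R * (l * (M * H + ε)) := by
      refine (Finset.sum_le_sum e4).trans ?_
      rw [Finset.sum_const, nsmul_eq_mul, hJcard]
    linarith
  -- the cross term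
  have hcross : R * (H * W - b * (ε + M * a)) ≤
      ∑ m ∈ S, w m * ∑ c ∈ (Ioc (s m) (s m + H)).filter (fun c => c.Coprime m),
        ∑ j ∈ JJ, Λ (c + j * m) := by
    have e1 : ∑ m ∈ S, w m * ∑ c ∈ (Ioc (s m) (s m + H)).filter (fun c => c.Coprime m),
        ∑ j ∈ JJ, Λ (c + j * m) =
        ∑ j ∈ JJ, ∑ m ∈ S, w m * ∑ n ∈ (Ioc (s m + j * m) (s m + j * m + H)).filter
          (fun n => n.Coprime m), Λ n := by
      rw [Finset.sum_comm]
      apply Finset.sum_congr rfl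
      intro m _
      rw [Finset.sum_comm, Finset.mul_sum]
      apply Finset.sum_congr rfl
      intro j _
      rw [sum_shift_cop (s m) H j m (fun n => Λ n)]
    rw [e1]
    have e2 : ∀ j ∈ JJ, H * W - b * (ε + M * a) ≤ ∑ m ∈ S, w m *
        ∑ n ∈ (Ioc (s m + j * m) (s m + j * m + H)).filter (fun n => n.Coprime m), Λ n := by
      intro j hj
      rw [hJJ] at hj
      have e3 : ∀ m ∈ S, w m * H - b * |∑ n ∈ Ioc (s m + j * m) (s m + j * m + H), Λ n - H| - b * a ≤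
          w m * ∑ n ∈ (Ioc (s m + j * m) (s m + j * m + H)).filter (fun n => n.Coprime m), Λ n := by
        intro m hm
        rw [hS] at hm
        obtain ⟨hw0, hwb⟩ := hw m hm
        have e4 := Finset.sum_filter_add_sum_filter_not (Ioc (s m + j * m) (s m + j * m + H))
          (fun n => n.Coprime m) (fun n => Λ n)
        have e5 := hcop j hj m hm
        have e6 : (H : ℝ) - |∑ n ∈ Ioc (s m + j * m) (s m + j * m + H), Λ n - H| - a ≤
            ∑ n ∈ (Ioc (s m + j * m) (s m + j * m + H)).filter (fun n => n.Coprime m), Λ n := by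
          have e7 := neg_abs_le (∑ n ∈ Ioc (s m + j * m) (s m + j * m + H), Λ n - H)
          linarith
        have e8 := mul_le_mul_of_nonneg_left e6 hw0
        have e9 : w m * |∑ n ∈ Ioc (s m + j * m) (s m + j * m + H), Λ n - H| ≤
            b * |∑ n ∈ Ioc (s m + j * m) (s m + j * m + H), Λ n - H| :=
          mul_le_mul_of_nonneg_right hwb (abs_nonneg _)
        have e10 : w m * a ≤ b * a := mul_le_mul_of_nonneg_right hwb ha
        linarith
      refine le_trans ?_ (Finset.sum_le_sum e3)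
      rw [Finset.sum_sub_distrib, Finset.sum_sub_distrib, ← Finset.sum_mul, ← Finset.mul_sum,
        Finset.sum_const, nsmul_eq_mul, hScard]
      have e11 := mul_le_mul_of_nonneg_left (h1 j hj) hb
      rw [hS, ← hW]
      linarith
    calc R * (H * W - b * (ε + M * a)) = ∑ _j ∈ JJ, (H * W - b * (ε + M * a)) := by
          rw [Finset.sum_const, nsmul_eq_mul, hJcard]
      _ ≤ _ := Finset.sum_le_sum e2
  -- the expansion
  have hexp : ∑ m ∈ S, ∑ c ∈ (Ioc (s m) (s m + H)).filter (fun c => c.Coprime m),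
      (∑ j ∈ JJ, Λ (c + j * m) - R * w m) ^ 2 =
      ∑ m ∈ S, ∑ c ∈ (Ioc (s m) (s m + H)).filter (fun c => c.Coprime m), (∑ j ∈ JJ, Λ (c + j * m)) ^ 2 -
      2 * R * ∑ m ∈ S, w m * ∑ c ∈ (Ioc (s m) (s m + H)).filter (fun c => c.Coprime m),
        ∑ j ∈ JJ, Λ (c + j * m) +
      (R : ℝ) ^ 2 * ∑ m ∈ S, w m ^ 2 *
        (((Ioc (s m) (s m + H)).filter (fun c => c.Coprime m)).card : ℝ) := by
    rw [Finset.mul_sum, Finset.mul_sum, ← Finset.sum_sub_distrib, ← Finset.sum_add_distrib]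
    apply Finset.sum_congr rfl
    intro m _
    have e1 : ∀ c ∈ (Ioc (s m) (s m + H)).filter (fun c => c.Coprime m),
        (∑ j ∈ JJ, Λ (c + j * m) - R * w m) ^ 2 =
        (∑ j ∈ JJ, Λ (c + j * m)) ^ 2 - 2 * R * w m * (∑ j ∈ JJ, Λ (c + j * m)) +
          (R : ℝ) ^ 2 * w m ^ 2 := by
      intro c _
      ring
    rw [Finset.sum_congr rfl e1, Finset.sum_add_distrib, Finset.sum_sub_distrib, ← Finset.mul_sum,
      Finset.sum_const, nsmul_eq_mul]
    ring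
  have hmon : ∑ m ∈ S, ∑ c ∈ (Ioc (s m) (s m + H)).filter (fun c => c.Coprime m),
      (∑ j ∈ JJ, Λ (c + j * m)) ^ 2 ≤
      ∑ m ∈ S, ∑ c ∈ Ioc (s m) (s m + H), (∑ j ∈ JJ, Λ (c + j * m)) ^ 2 := by
    apply Finset.sum_le_sum
    intro m _
    apply Finset.sum_le_sum_of_subset_of_nonneg (filter_subset _ _)
    intro c _ _
    positivity
  rw [← hS, ← hJJ, hexp]
  have hR0 : (0 : ℝ) ≤ R := Nat.cast_nonneg _
  have f1 := mul_le_mul_of_nonneg_left hcross (show (0 : ℝ) ≤ 2 * R by positivity)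
  rw [← hS] at hz
  have f2 := mul_le_mul_of_nonneg_left hz (show (0 : ℝ) ≤ (R : ℝ) ^ 2 by positivity)
  have f3 : (R : ℝ) ^ 2 * H * (cR R * M - R) ≤ (R : ℝ) ^ 2 * H * W :=
    mul_le_mul_of_nonneg_left hsw (by positivity)
  nlinarith [f1, f2, f3, hsec, hmon]

end Pool.Agent.K9h44.SC
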