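import Pool.Agent.K9h44.SC.Pair2
import Pool.Agent.K9h44.SC.Var

/-!
# Project SC: the count of the classes without small primes
-/

set_option autoImplicit false

namespace Pool.Agent.K9h44.SC

open Finset Filter

open scoped ArithmeticFunction.vonMangoldt

/-- powers against `exp (l / 2)` -/
theorem ev_pow_exp (n : ℕ) : ∀ᶠ l : ℝ in atTop, l ^ n ≤ Real.exp (l / 2) := by
  have h := (Real.isLittleO_pow_exp_atTop (n := n)).bound (show (0 : ℝ) < (1 / 2) ^ n by positivity)
  have h2 := (tendsto_id.atTop_div_const (show (0 : ℝ) < 2 by norm_num)).eventually h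
  filter_upwards [h2, eventually_ge_atTop 0] with l h3 h4
  simp only [id] at h3
  rw [Real.norm_of_nonneg (by positivity), Real.norm_of_nonneg (by positivity), div_pow, one_div,
    inv_pow, div_le_iff₀ (by positivity)] at h3
  calc l ^ n ≤ (2 ^ n)⁻¹ * Real.exp (l / 2) * 2 ^ n := h3
    _ = Real.exp (l / 2) := by field_simp

/-- windows and sparse sets -/
theorem count_windows {M T H : ℕ} (f : ℕ → ℕ) (hf : ∀ m ∈ Ioc M (2 * M), M < f m ∧ f m ≤ T * M)
    (hmono : ∀ m ∈ Ioc M (2 * M), ∀ m' ∈ Ioc M (2 * M), m < m' → f m < f m') (hHM : H ≤ M)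
    (P : ℕ → Prop) [DecidablePred P] :
    ∑ m ∈ Ioc M (2 * M), (((Ioc (f m) (f m + H)).filter P).card : ℝ) ≤
      H * (((Icc 1 ((T + 1) * M)).filter P).card : ℝ) := by
  classical
  obtain ⟨K, hK⟩ : ∃ K : ℕ → Finset ℕ,
    K = fun n => (Ioc M (2 * M)).filter (fun m => f m < n ∧ n ≤ f m + H) := ⟨_, rfl⟩
  have hKcard : ∀ n, (K n).card ≤ H := by
    intro n
    rcases (K n).eq_empty_or_nonempty with h | h
    · rw [h]; simp
    · exact (inner_bound (d := 1) (Y := 1) f hmono le_rfl le_rfl n (K n) (by rw [hK]) _ rfl h).1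
  have h1 : ∑ m ∈ Ioc M (2 * M), (((Ioc (f m) (f m + H)).filter P).card : ℝ) =
      ∑ n ∈ (Icc 1 ((T + 1) * M)).filter P, ∑ _m ∈ K n, (1 : ℝ) := by
    have h2 : ∀ m ∈ Ioc M (2 * M), (((Ioc (f m) (f m + H)).filter P).card : ℝ) =
        ∑ _n ∈ (Ioc (f m) (f m + H)).filter P, (1 : ℝ) := by
      intro m _
      rw [Finset.sum_const, nsmul_eq_mul, mul_one]
    rw [Finset.sum_congr rfl h2]
    apply Finset.sum_comm'
    intro m n
    rw [hK]
    simp only [mem_filter, mem_Ioc, mem_Icc]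
    constructor
    · rintro ⟨h3, h4, h5⟩
      have h6 := hf m (mem_Ioc.2 h3)
      refine ⟨⟨h3, h4⟩, ⟨by omega, ?_⟩, h5⟩
      rw [add_mul, one_mul]
      omega
    · rintro ⟨⟨h3, h4⟩, _, h5⟩
      exact ⟨h3, h4, h5⟩
  rw [h1]
  calc ∑ n ∈ (Icc 1 ((T + 1) * M)).filter P, ∑ _m ∈ K n, (1 : ℝ) ≤
        ∑ _n ∈ (Icc 1 ((T + 1) * M)).filter P, (H : ℝ) := by
        apply Finset.sum_le_sum
        intro n _
        rw [Finset.sum_const, nsmul_eq_mul, mul_one]
        exact_mod_cast hKcard n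
    _ = _ := by
        rw [Finset.sum_const, nsmul_eq_mul, mul_comm]

theorem cR_le (R : ℕ) : cR R ≤ R := by
  unfold cR
  calc ∑ e ∈ (Icc 1 R).filter Squarefree, 1 / ((e : ℝ) * (Nat.totient e : ℝ)) ≤
        ∑ _e ∈ (Icc 1 R).filter Squarefree, (1 : ℝ) := by
        apply Finset.sum_le_sum
        intro e he
        rw [mem_filter, mem_Icc] at he
        have h1 : (1 : ℝ) ≤ e := by exact_mod_cast he.1.1
        have h2 : (1 : ℝ) ≤ Nat.totient e := by exact_mod_cast Nat.totient_pos.2 (by omega)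
        rw [div_le_one (by positivity)]
        nlinarith
    _ = (((Icc 1 R).filter Squarefree).card : ℝ) := by rw [Finset.sum_const, nsmul_eq_mul, mul_one]
    _ ≤ R := by
        have h1 : ((Icc 1 R).filter Squarefree).card ≤ (Icc 1 R).card := card_filter_le _ _
        rw [Nat.card_Icc, Nat.add_sub_cancel] at h1
        exact_mod_cast h1

open Classical in
/-- the classes `c` with no prime `≤ y m` -/
noncomputable def Bad (s : ℕ → ℕ) (H : ℕ) (y : ℝ) (m : ℕ) : Finset ℕ :=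
  (Ioc (s m) (s m + H)).filter (fun c => c ≤ m ∧ c.Coprime m ∧
    ∀ p : ℕ, p.Prime → p ≡ c [MOD m] → y * m < p)

open Classical in
/-- classes without small primes: from the variance -/
theorem bad_count {M H J R T : ℕ} (s : ℕ → ℕ) (y V : ℝ) (hR : 1 ≤ R) (hHM : H ≤ M)
    (hy : ((J + R + 1 : ℕ) : ℝ) ≤ y)
    (hw : ∀ m ∈ Ioc M (2 * M), 1 ≤ w m)
    (hf : ∀ j ∈ Ioc J (J + R), ∀ m ∈ Ioc M (2 * M), M < s m + j * m ∧ s m + j * m ≤ T * M)
    (hmono : ∀ j ∈ Ioc J (J + R), ∀ m ∈ Ioc M (2 * M), ∀ m' ∈ Ioc M (2 * M), m < m' →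
      s m + j * m < s m' + j * m')
    (hV : ∑ m ∈ Ioc M (2 * M), ∑ c ∈ (Ioc (s m) (s m + H)).filter (fun c => c.Coprime m),
      (∑ j ∈ Ioc J (J + R), Λ (c + j * m) - R * w m) ^ 2 ≤ V) :
    ∑ m ∈ Ioc M (2 * M), ((Bad s H y m).card : ℝ) ≤ V / (R : ℝ) ^ 2 +
      R * (H * (((Icc 1 ((T + 1) * M)).filter (fun n => IsPrimePow n ∧ ¬ n.Prime)).card : ℝ)) := by
  have hR0 : (0 : ℝ) < R := by exact_mod_cast hR
  obtain ⟨G1, hG1⟩ : ∃ G1 : ℕ → Finset ℕ, G1 = fun m =>
    ((Ioc (s m) (s m + H)).filter (fun c => c.Coprime m)).filter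
      (fun c => ∑ j ∈ Ioc J (J + R), Λ (c + j * m) = 0) := ⟨_, rfl⟩
  obtain ⟨G2, hG2⟩ : ∃ G2 : ℕ → Finset ℕ, G2 = fun m =>
    (Ioc J (J + R)).biUnion (fun j => (Ioc (s m) (s m + H)).filter
      (fun c => IsPrimePow (c + j * m) ∧ ¬ (c + j * m).Prime)) := ⟨_, rfl⟩
  have hsub : ∀ m ∈ Ioc M (2 * M), Bad s H y m ⊆ G1 m ∪ G2 m := by
    intro m hm c hc
    unfold Bad at hc
    rw [mem_filter] at hc
    obtain ⟨hc1, hc2, hc3, hc4⟩ := hc
    rw [mem_union]
    by_cases h : ∑ j ∈ Ioc J (J + R), Λ (c + j * m) = 0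
    · left
      rw [hG1]
      simp only [mem_filter]
      exact ⟨⟨hc1, hc3⟩, h⟩
    · right
      obtain ⟨j, hj, hne⟩ := Finset.exists_ne_zero_of_sum_ne_zero h
      rw [hG2]
      simp only [mem_biUnion, mem_filter]
      refine ⟨j, hj, hc1, ArithmeticFunction.vonMangoldt_ne_zero_iff.1 hne, ?_⟩
      intro hp
      have h1 := hc4 _ hp (by
        unfold Nat.ModEq
        rw [Nat.add_mul_mod_self_right])
      rw [mem_Ioc] at hj
      have h2 : c + j * m ≤ (J + R + 1) * m := by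
        have : j * m ≤ (J + R) * m := Nat.mul_le_mul_right _ hj.2
        rw [add_mul, one_mul]
        omega
      have h3 : ((c + j * m : ℕ) : ℝ) ≤ y * m := by
        calc ((c + j * m : ℕ) : ℝ) ≤ (((J + R + 1) * m : ℕ) : ℝ) := by exact_mod_cast h2
          _ = ((J + R + 1 : ℕ) : ℝ) * m := by push_cast; ring
          _ ≤ y * m := mul_le_mul_of_nonneg_right hy (Nat.cast_nonneg _)
      linarith
  have hcard : ∀ m ∈ Ioc M (2 * M), ((Bad s H y m).card : ℝ) ≤ ((G1 m).card : ℝ) + ((G2 m).card : ℝ) := by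
    intro m hm
    exact_mod_cast (card_le_card (hsub m hm)).trans (card_union_le _ _)
  refine (Finset.sum_le_sum hcard).trans ?_
  rw [Finset.sum_add_distrib]
  apply add_le_add
  · rw [le_div_iff₀ (by positivity), Finset.sum_mul]
    refine le_trans ?_ hV
    apply Finset.sum_le_sum
    intro m hm
    calc ((G1 m).card : ℝ) * (R : ℝ) ^ 2 = ∑ _c ∈ G1 m, (R : ℝ) ^ 2 := by
          rw [Finset.sum_const, nsmul_eq_mul]
      _ ≤ ∑ c ∈ G1 m, (∑ j ∈ Ioc J (J + R), Λ (c + j * m) - R * w m) ^ 2 := by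
          apply Finset.sum_le_sum
          intro c hc
          rw [hG1] at hc
          simp only [mem_filter] at hc
          rw [hc.2]
          have h1 := hw m hm
          have h2 : (0 - (R : ℝ) * w m) ^ 2 = (R : ℝ) ^ 2 * (w m) ^ 2 := by ring
          rw [h2]
          have h3 : 1 ≤ (w m) ^ 2 := one_le_pow₀ h1
          nlinarith [sq_nonneg (R : ℝ)]
      _ ≤ _ := by
          apply Finset.sum_le_sum_of_subset_of_nonneg
          · rw [hG1]
            exact filter_subset _ _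
          · intro c _ _
            positivity
  · have h1 : ∀ m ∈ Ioc M (2 * M), ((G2 m).card : ℝ) ≤ ∑ j ∈ Ioc J (J + R),
        (((Ioc (s m + j * m) (s m + j * m + H)).filter (fun n => IsPrimePow n ∧ ¬ n.Prime)).card : ℝ) := by
      intro m _
      rw [hG2]
      simp only
      have h2 := card_biUnion_le (s := Ioc J (J + R)) (t := fun j => (Ioc (s m) (s m + H)).filter
        (fun c => IsPrimePow (c + j * m) ∧ ¬ (c + j * m).Prime))
      have h3 : ∀ j ∈ Ioc J (J + R), (((Ioc (s m) (s m + H)).filter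
          (fun c => IsPrimePow (c + j * m) ∧ ¬ (c + j * m).Prime)).card) ≤
          (((Ioc (s m + j * m) (s m + j * m + H)).filter (fun n => IsPrimePow n ∧ ¬ n.Prime)).card) := by
        intro j _
        apply Finset.card_le_card_of_injOn (fun c => c + j * m)
        · intro c hc
          simp only [mem_coe, mem_filter, mem_Ioc] at hc ⊢
          refine ⟨by omega, hc.2⟩
        · intro c1 _ c2 _ h
          simp only at h
          omega
      exact_mod_cast h2.trans (Finset.sum_le_sum h3)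
    refine (Finset.sum_le_sum h1).trans ?_
    rw [Finset.sum_comm]
    have h4 : ∀ j ∈ Ioc J (J + R), ∑ m ∈ Ioc M (2 * M),
        (((Ioc (s m + j * m) (s m + j * m + H)).filter (fun n => IsPrimePow n ∧ ¬ n.Prime)).card : ℝ) ≤
        H * (((Icc 1 ((T + 1) * M)).filter (fun n => IsPrimePow n ∧ ¬ n.Prime)).card : ℝ) := by
      intro j hj
      exact count_windows (fun m => s m + j * m) (hf j hj) (hmono j hj) hHM _
    refine (Finset.sum_le_sum h4).trans (le_of_eq ?_)
    rw [Finset.sum_const, nsmul_eq_mul, Nat.card_Ioc]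
    congr 2
    omega

end Pool.Agent.K9h44.SC
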