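import Pool.Agent.K9h44.SC.Main

/-!
# Project SC: the theorem, from the statements
-/

set_option autoImplicit false

namespace Pool.Agent.K9h44.SC

open Finset Filter

open scoped ArithmeticFunction.vonMangoldt

theorem main_count (hone : S_ONE) (hpair : S_PAIR) (hw : S_W) (hsumw : S_SUMW) (hsumd : S_SUMD)
    (hz : S_Z) (hnc : S_NC) (hpp : S_PP) :
    ∀ A : ℕ, ∃ D M₀ : ℕ, ∀ M : ℕ, M₀ ≤ M → ∀ (s : ℕ → ℕ) (H : ℕ) (y : ℝ),
      (M : ℝ) ^ (1 / 3 : ℝ) * Real.log M ^ D ≤ H → H ≤ M → 16 ≤ y → y ≤ Real.log M ^ A →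
      (∀ m ∈ Ioc M (2 * M), s m ≤ m) →
      (∀ m, M < m → m < 2 * M → (s m : ℝ) ≤ s (m + 1) + y / 4) →
      ∑ m ∈ Ioc M (2 * M), ((Bad s H y m).card : ℝ) ≤
        8 * (M * H * Real.log M / y) + M * H / Real.log M ^ A := by
  classical
  intro A
  obtain ⟨U, hU⟩ : ∃ U : ℕ, U = 2 * A + 6 := ⟨_, rfl⟩
  obtain ⟨C₁, X₁, h1⟩ := hone (A + 1) U
  obtain ⟨C₂, X₂, h2⟩ := hpair (A + 1) U
  obtain ⟨X₃, h3⟩ := hz
  obtain ⟨X₄, h4⟩ := hnc
  obtain ⟨X₅, h5⟩ := hpp
  obtain ⟨X₆, h6⟩ := ev_log (P := fun l => 100 ≤ l ∧ l ^ (3 * A + 12) ≤ Real.exp (l / 2)) (by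
    filter_upwards [eventually_ge_atTop 100, ev_pow_exp (3 * A + 12)] with l a1 a2
    exact ⟨a1, a2⟩)
  refine ⟨C₁ + C₂ + A + 10, X₁ + X₂ + X₃ + X₄ + X₅ + X₆ + 1, ?_⟩
  intro M hM s H y hH1 hHM hy16 hyA hs1 hs2
  have hM0 : 1 ≤ M := by omega
  have hM0r : (0 : ℝ) < M := by exact_mod_cast hM0
  have hM1r : (1 : ℝ) ≤ M := by exact_mod_cast hM0
  obtain ⟨g1, g2⟩ := h6 M (by omega)
  have h1' := h1 M (by omega)
  have h2' := h2 M (by omega)
  have h3' := h3 M (by omega) s H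
  have h4' := h4 M (by omega)
  obtain ⟨L, hLd⟩ : ∃ L : ℝ, L = Real.log M := ⟨_, rfl⟩
  rw [← hLd] at g1 g2 h1' h2' h3' h4' hH1 hyA ⊢
  have hL0 : 0 < L := by linarith
  have hL1 : 1 ≤ L := by linarith
  have hexp : Real.exp (L / 2) * Real.exp (L / 2) = M := by
    rw [← Real.exp_add, add_halves, hLd, Real.exp_log hM0r]
  have hMhalf : (M : ℝ) ^ (1 / 2 : ℝ) = Real.exp (L / 2) := by
    rw [← hexp, Real.mul_rpow (Real.exp_pos _).le (Real.exp_pos _).le, ← Real.exp_mul,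
      ← Real.exp_add]
    congr 1
    ring
  obtain ⟨P, hP⟩ : ∃ P : ℝ, P = Real.exp (L / 2) := ⟨_, rfl⟩
  rw [← hP] at g2 hexp hMhalf
  have hP0 : 0 < P := by rw [hP]; exact Real.exp_pos _
  have hpowL : ∀ k : ℕ, 1 ≤ L ^ k := fun k => one_le_pow₀ hL1
  have hP1 : 1 ≤ P := (hpowL _).trans g2
  have hpow_mono : ∀ i k : ℕ, i ≤ k → L ^ i ≤ L ^ k := fun i k h => pow_le_pow_right₀ hL1 h
  have hPM : P ≤ M := by rw [← hexp]; nlinarith
  -- `H` is large
  have hM13 : (1 : ℝ) ≤ (M : ℝ) ^ (1 / 3 : ℝ) := Real.one_le_rpow hM1r (by norm_num)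
  have hHk : ∀ k : ℕ, k ≤ C₁ + C₂ + A + 10 → (M : ℝ) ^ (1 / 3 : ℝ) * L ^ k ≤ H := by
    intro k hk
    refine le_trans ?_ hH1
    exact mul_le_mul_of_nonneg_left (hpow_mono _ _ hk) (by linarith)
  have hHA : L ^ (A + 10) ≤ H := by
    refine le_trans ?_ (hHk (A + 10) (by omega))
    exact le_mul_of_one_le_left (by positivity) hM13
  have hH0 : (0 : ℝ) ≤ H := Nat.cast_nonneg _
  have hHMr : (H : ℝ) ≤ M := by exact_mod_cast hHM
  -- the range of `j`
  obtain ⟨J, hJ⟩ : ∃ J : ℕ, J = ⌈y / 4⌉₊ := ⟨_, rfl⟩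
  obtain ⟨F, hF⟩ : ∃ F : ℕ, F = ⌊y⌋₊ := ⟨_, rfl⟩
  have hJ1 : y / 4 ≤ J := by rw [hJ]; exact Nat.le_ceil _
  have hJ2 : (J : ℝ) < y / 4 + 1 := by rw [hJ]; exact Nat.ceil_lt_add_one (by linarith)
  have hF1 : (F : ℝ) ≤ y := by rw [hF]; exact Nat.floor_le (by linarith)
  have hF2 : y < F + 1 := by rw [hF]; exact Nat.lt_floor_add_one _
  have hJF : J + 2 ≤ F := by
    have : ((J + 2 : ℕ) : ℝ) ≤ F := by push_cast; linarith
    exact_mod_cast this
  obtain ⟨R, hR⟩ : ∃ R : ℕ, J + R + 1 = F := ⟨F - 1 - J, by omega⟩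
  have hR1 : 1 ≤ R := by omega
  have hRr : (J : ℝ) + R + 1 = F := by exact_mod_cast hR
  have hRy : y / 2 ≤ R := by linarith
  have hRy2 : (R : ℝ) ≤ y := by linarith [(Nat.cast_nonneg J : (0 : ℝ) ≤ J)]
  have hR0 : (0 : ℝ) < R := by linarith
  have hRA : (R : ℝ) ≤ L ^ A := hRy2.trans hyA
  obtain ⟨T, hT⟩ : ∃ T : ℕ, T = 2 * F := ⟨_, rfl⟩
  have hLA1 : L ^ (A + 1) = L ^ A * L := pow_succ _ _
  have hTr : (T : ℝ) ≤ L ^ (A + 1) := by
    rw [hT, hLA1]
    push_cast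
    have : 0 ≤ L ^ A := by positivity
    nlinarith
  have hT1 : ((T + 1 : ℕ) : ℝ) ≤ L ^ (A + 2) := by
    push_cast
    have e1 : L ^ (A + 2) = L ^ (A + 1) * L := pow_succ _ _
    rw [e1]
    nlinarith [hpowL (A + 1)]
  have hT1M : ((T + 1 : ℕ) : ℝ) ≤ M :=
    hT1.trans ((hpow_mono _ _ (by omega)).trans (g2.trans hPM))
  have hf : ∀ j ∈ Ioc J (J + R), ∀ m ∈ Ioc M (2 * M), M < s m + j * m ∧ s m + j * m ≤ T * M := by
    intro j hj m hm
    rw [mem_Ioc] at hj hm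
    have e1 : 1 * m ≤ j * m := Nat.mul_le_mul_right _ (by omega)
    have e2 : j * m ≤ (J + R) * m := Nat.mul_le_mul_right _ hj.2
    have e3 := hs1 m (mem_Ioc.2 hm)
    have e4 : (J + R + 1) * m ≤ F * (2 * M) := by
      rw [hR]; exact Nat.mul_le_mul_left _ hm.2
    have e5 : F * (2 * M) = T * M := by rw [hT]; ring
    have e6 : (J + R + 1) * m = (J + R) * m + m := by ring
    constructor <;> omega
  have hstep : ∀ j ∈ Ioc J (J + R), ∀ m, M < m → m < 2 * M → s m + j * m < s (m + 1) + j * (m + 1) := by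
    intro j hj m hm1 hm2
    rw [mem_Ioc] at hj
    have e1 := hs2 m hm1 hm2
    have e2 : (J : ℝ) + 1 ≤ j := by exact_mod_cast hj.1
    have e3 : ((s m + j * m : ℕ) : ℝ) < ((s (m + 1) + j * (m + 1) : ℕ) : ℝ) := by
      push_cast
      have e4 : (j : ℝ) * ((m : ℝ) + 1) = j * m + j := by ring
      rw [e4]
      linarith
    exact_mod_cast e3
  have hmono : ∀ j ∈ Ioc J (J + R), ∀ m ∈ Ioc M (2 * M), ∀ m' ∈ Ioc M (2 * M), m < m' →
      s m + j * m < s m' + j * m' := by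
    intro j hj m hm m' hm' hlt
    have key : ∀ k : ℕ, m + k + 1 ≤ 2 * M → s m + j * m < s (m + k + 1) + j * (m + k + 1) := by
      intro k
      induction k with
      | zero =>
        intro hk
        rw [mem_Ioc] at hm
        exact hstep j hj m (by omega) (by omega)
      | succ k ih =>
        intro hk
        rw [mem_Ioc] at hm
        have e1 := ih (by omega)
        have e2 := hstep j hj (m + k + 1) (by omega) (by omega)
        have e3 : m + (k + 1) + 1 = m + k + 1 + 1 := by ring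
        rw [e3]
        omega
    rw [mem_Ioc] at hm'
    have e1 := key (m' - m - 1) (by omega)
    have e2 : m + (m' - m - 1) + 1 = m' := by omega
    rw [e2] at e1
    exact e1
  -- sizes
  have hupper : ∀ j ∈ Ioc J (J + R), ∀ m ∈ Ioc M (2 * M), s m + j * m + H ≤ (T + 1) * M := by
    intro j hj m hm
    have e1 := (hf j hj m hm).2
    rw [add_mul, one_mul]
    omega
  have hTM2 : (((T + 1) * M : ℕ) : ℝ) ≤ (M : ℝ) ^ 2 := by
    push_cast
    push_cast at hT1M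
    rw [sq]
    exact mul_le_mul_of_nonneg_right hT1M hM0r.le
  have hlogM2 : Real.log ((M : ℝ) ^ 2) = 2 * L := by
    rw [Real.log_pow, ← hLd]
    push_cast
    ring
  obtain ⟨ε, hε⟩ : ∃ ε : ℝ, ε = M * (H : ℝ) / L ^ U := ⟨_, rfl⟩
  have hε0 : 0 ≤ ε := by rw [hε]; positivity
  have hvar := var_bound M H J R s (2 * L) ε (L ^ 3) (4 * L) (M * L ^ 4) (by linarith) hε0
    (by linarith) (by
      intro j hj m hm n hn
      have e1 := hupper j hj m hm
      rw [mem_Ioc] at hn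
      refine ArithmeticFunction.vonMangoldt_le_log.trans ?_
      rw [← hlogM2]
      apply Real.log_le_log (by exact_mod_cast (by omega : 0 < n))
      refine le_trans ?_ hTM2
      exact_mod_cast hn.2.trans e1) (by
      intro j hj
      rw [hε]
      exact h1' T hTr (fun m => s m + j * m) (hf j hj) (hmono j hj) H (hHk C₁ (by omega)) hHM) (by
      intro j hj j' hj'
      rw [hε]
      have hj2 := hj
      rw [mem_Ioc] at hj' hj2
      refine h2' T hTr (fun m => s m + j * m) (hf j hj) (hmono j hj) (j' - j) (by omega) ?_ H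
        (hHk C₂ (by omega)) hHM
      have e1 : ((j' - j : ℕ) : ℝ) ≤ R := by exact_mod_cast (by omega : j' - j ≤ R)
      exact e1.trans (hRA.trans (hpow_mono _ _ (by omega)))) (by
      intro j hj m hm
      apply h4' m hm
      refine le_trans ?_ hTM2
      exact_mod_cast hupper j hj m hm) (by
      intro m hm
      rw [mem_Ioc] at hm
      obtain ⟨e1, e2⟩ := hw m (by omega)
      refine ⟨by linarith, e2.trans ?_⟩
      have e3 : Real.log m ≤ Real.log 2 + L := by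
        rw [hLd, ← Real.log_mul (by norm_num) hM0r.ne']
        exact Real.log_le_log (by exact_mod_cast (by omega : 0 < m)) (by exact_mod_cast hm.2)
      have e4 := Real.log_two_lt_d9
      linarith) h3' (hsumd J R) (hsumw M R (by
        have e1 : (R : ℝ) ≤ M :=
          hRA.trans ((hpow_mono _ _ (by omega)).trans (g2.trans hPM))
        exact_mod_cast e1)) (by positivity)
  have hbad := bad_count (T := T) s y _ hR1 hHM (by
      rw [hR]; exact hF1) (by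
      intro m hm
      rw [mem_Ioc] at hm
      exact (hw m (by omega)).1) hf hmono hvar
  refine hbad.trans ?_
  -- numerical estimates
  obtain ⟨Q, hQ⟩ : ∃ Q : ℝ, Q = M * H / L ^ A := ⟨_, rfl⟩
  rw [← hQ]
  have hLA0 : 0 < L ^ A := by positivity
  have hMH : M * (H : ℝ) = Q * L ^ A := by rw [hQ]; field_simp
  have hQ0 : 0 ≤ Q := by rw [hQ]; positivity
  have hεQ : ε * L ^ (A + 6) = Q := by
    rw [hε, hQ, hU]
    have : L ^ (2 * A + 6) = L ^ A * L ^ (A + 6) := by rw [← pow_add]; congr 1; ring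
    rw [this]
    field_simp
  have hL6 : L ^ (A + 6) = L ^ A * L ^ 6 := pow_add _ _ _
  have hL16 : (8 : ℝ) ≤ L ^ 6 := by
    calc (8 : ℝ) ≤ L ^ 1 := by rw [pow_one]; linarith
      _ ≤ L ^ 6 := hpow_mono 1 6 (by norm_num)
  -- (iii)
  have c3 : L ^ A * ε ≤ Q / 8 := by
    rw [← hεQ, hL6]
    have : 0 ≤ L ^ A * ε := by positivity
    nlinarith
  -- (iv)
  have c4 : ε ≤ Q / 8 := by
    refine le_trans ?_ c3
    exact le_mul_of_one_le_left hε0 (hpowL A)
  -- (v)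
  have c5 : 8 * L * ε ≤ Q / 8 := by
    rw [← hεQ, hL6]
    have e1 : (64 : ℝ) * L ≤ L ^ A * L ^ 6 := by
      have e2 : L ^ 2 ≤ L ^ 6 := hpow_mono 2 6 (by norm_num)
      have e3 : (64 : ℝ) * L ≤ L ^ 2 := by nlinarith
      nlinarith [hpowL A]
    nlinarith
  -- (vi)
  have c6 : 9 * (M * L ^ 4) ≤ Q / 8 := by
    rw [hQ, div_div, le_div_iff₀ (by positivity)]
    have e1 : 72 * (L ^ 4 * L ^ A) ≤ H := by
      refine le_trans ?_ hHA
      have e2 : L ^ (A + 10) = L ^ 6 * (L ^ 4 * L ^ A) := by ring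
      rw [e2]
      apply mul_le_mul_of_nonneg_right _ (by positivity)
      calc (72 : ℝ) ≤ L ^ 1 := by rw [pow_one]; linarith
        _ ≤ L ^ 6 := hpow_mono 1 6 (by norm_num)
    calc (9 : ℝ) * ((M : ℝ) * L ^ 4) * (L ^ A * 8) = (M : ℝ) * (72 * (L ^ 4 * L ^ A)) := by ring
      _ ≤ (M : ℝ) * (H : ℝ) := mul_le_mul_of_nonneg_left e1 hM0r.le
  -- (ii)
  have hPbig : 100 * (L ^ A * (L ^ A * L ^ A) * L ^ 11) ≤ P := by
    refine le_trans ?_ g2
    have e1 : L ^ (3 * A + 12) = L * (L ^ A * (L ^ A * L ^ A) * L ^ 11) := by ring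
    rw [e1]
    exact mul_le_mul_of_nonneg_right g1 (by positivity)
  have c2 : (R : ℝ) * H ≤ Q / 8 := by
    rw [hQ, div_div, le_div_iff₀ (by positivity)]
    have e1 : (R : ℝ) * (L ^ A * 8) ≤ M := by
      refine le_trans ?_ (hPbig.trans hPM)
      have e2 : 1 ≤ L ^ A * L ^ 11 := one_le_mul_of_one_le_of_one_le (hpowL A) (hpowL 11)
      calc (R : ℝ) * (L ^ A * 8) ≤ L ^ A * (L ^ A * 8) :=
            mul_le_mul_of_nonneg_right hRA (by positivity)
        _ = 8 * (L ^ A * L ^ A) * 1 := by ring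
        _ ≤ 100 * (L ^ A * L ^ A) * (L ^ A * L ^ 11) := by
            apply mul_le_mul _ e2 zero_le_one (by positivity)
            nlinarith [mul_pos hLA0 hLA0]
        _ = 100 * (L ^ A * (L ^ A * L ^ A) * L ^ 11) := by ring
    calc (R : ℝ) * H * (L ^ A * 8) = ((R : ℝ) * (L ^ A * 8)) * (H : ℝ) := by ring
      _ ≤ (M : ℝ) * (H : ℝ) := mul_le_mul_of_nonneg_right e1 hH0
  -- (vii)
  have c7 : (R : ℝ) * (H * (((Icc 1 ((T + 1) * M)).filter
      (fun n => IsPrimePow n ∧ ¬ n.Prime)).card : ℝ)) ≤ Q / 8 := by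
    have hN5 : X₅ ≤ (T + 1) * M := le_trans (by omega) (Nat.le_mul_of_pos_left M (by omega))
    have e1 := h5 ((T + 1) * M) hN5
    have hN0 : (0 : ℝ) < (((T + 1) * M : ℕ) : ℝ) := by
      exact_mod_cast Nat.mul_pos (by omega) (by omega)
    have e2 : Real.log (((T + 1) * M : ℕ) : ℝ) ≤ 2 * L := by
      rw [← hlogM2]
      exact Real.log_le_log hN0 hTM2
    have e2' : 0 ≤ Real.log (((T + 1) * M : ℕ) : ℝ) :=
      Real.log_nonneg (by exact_mod_cast Nat.mul_pos (by omega : 0 < T + 1) (by omega : 0 < M))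
    have e3 : (((T + 1) * M : ℕ) : ℝ) ^ (1 / 2 : ℝ) ≤ L ^ (A + 2) * P := by
      rw [Nat.cast_mul, Real.mul_rpow (by positivity) hM0r.le, hMhalf]
      apply mul_le_mul_of_nonneg_right _ hP0.le
      calc ((T + 1 : ℕ) : ℝ) ^ (1 / 2 : ℝ) ≤ ((T + 1 : ℕ) : ℝ) ^ (1 : ℝ) :=
            Real.rpow_le_rpow_of_exponent_le (by exact_mod_cast (by omega : 1 ≤ T + 1)) (by norm_num)
        _ = ((T + 1 : ℕ) : ℝ) := Real.rpow_one _
        _ ≤ L ^ (A + 2) := hT1
    have e4 : (((Icc 1 ((T + 1) * M)).filter (fun n => IsPrimePow n ∧ ¬ n.Prime)).card : ℝ) ≤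
        L ^ (A + 2) * P * (2 * L) ^ 2 := by
      refine e1.trans ?_
      exact mul_le_mul e3 (pow_le_pow_left₀ e2' e2 2) (by positivity) (by positivity)
    rw [hQ, div_div, le_div_iff₀ (by positivity)]
    have e5 : (R : ℝ) * (L ^ (A + 2) * P * (2 * L) ^ 2) * (L ^ A * 8) ≤ M := by
      calc (R : ℝ) * (L ^ (A + 2) * P * (2 * L) ^ 2) * (L ^ A * 8) ≤
            L ^ A * (L ^ (A + 2) * P * (2 * L) ^ 2) * (L ^ A * 8) := by
              gcongr
        _ = 32 * (L ^ A * (L ^ A * L ^ A) * L ^ 4) * P := by ring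
        _ ≤ 100 * (L ^ A * (L ^ A * L ^ A) * L ^ 11) * P := by
              apply mul_le_mul_of_nonneg_right _ hP0.le
              have e6 : L ^ 4 ≤ L ^ 11 := hpow_mono 4 11 (by norm_num)
              have e7 : 0 ≤ L ^ A * (L ^ A * L ^ A) := by positivity
              nlinarith [mul_le_mul_of_nonneg_left e6 e7, mul_nonneg e7 (show (0 : ℝ) ≤ L ^ 11 by positivity)]
        _ ≤ P * P := mul_le_mul_of_nonneg_right hPbig hP0.le
        _ = M := hexp
    calc (R : ℝ) * (H * (((Icc 1 ((T + 1) * M)).filter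
          (fun n => IsPrimePow n ∧ ¬ n.Prime)).card : ℝ)) * (L ^ A * 8) ≤
          (R : ℝ) * (H * (L ^ (A + 2) * P * (2 * L) ^ 2)) * (L ^ A * 8) := by
            gcongr
      _ = ((R : ℝ) * (L ^ (A + 2) * P * (2 * L) ^ 2) * (L ^ A * 8)) * (H : ℝ) := by ring
      _ ≤ (M : ℝ) * (H : ℝ) := mul_le_mul_of_nonneg_right e5 hH0
  -- (i)
  have c1 : 2 * L * (M * H + ε) / R ≤ 8 * (M * H * L / y) := by
    have e1 : ε ≤ M * H := by
      rw [hε]
      exact div_le_self (by positivity) (hpowL U)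
    have hy0 : 0 < y := by linarith
    rw [div_le_iff₀ hR0, mul_div_assoc', div_mul_eq_mul_div, le_div_iff₀ hy0]
    have e2 : 2 * L * (M * H + ε) ≤ 4 * (M * H * L) := by nlinarith
    have e3 : 0 ≤ M * H * L := by positivity
    calc 2 * L * (M * H + ε) * y ≤ 4 * (M * H * L) * y := mul_le_mul_of_nonneg_right e2 hy0.le
      _ ≤ 8 * (M * H * L) * R := by nlinarith
  have hcR := cR_le R
  have hVR : (R * (2 * L * (M * H + ε)) + (R : ℝ) ^ 3 * H +
      (R : ℝ) ^ 2 * (cR R * ε + ε + 2 * (4 * L) * (ε + M * L ^ 3) + M * L ^ 4)) / (R : ℝ) ^ 2 =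
      2 * L * (M * H + ε) / R + R * H + (cR R * ε + ε + 8 * L * ε + 9 * (M * L ^ 4)) := by
    field_simp
    ring
  rw [hVR]
  have c8 : cR R * ε ≤ Q / 8 := by
    refine le_trans ?_ c3
    exact mul_le_mul_of_nonneg_right (hcR.trans hRA) hε0
  linarith

end Pool.Agent.K9h44.SC
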