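import Pool.Agent.K9h44.SC.Stm

/-! Leaf NCPP (helper72): `S_NC` and `S_PP`. -/

set_option autoImplicit false

namespace Pool.Agent.K9h44.SC

open Finset

lemma np_omega_le_log (q : ℕ) (hq : 1 ≤ q) : (q.primeFactors.card : ℝ) ≤ 2 * Real.log q := by
  have h8 : 2 ^ q.primeFactors.card ≤ q := by
    calc 2 ^ q.primeFactors.card = ∏ p ∈ q.primeFactors, 2 := by rw [prod_const]
      _ ≤ ∏ p ∈ q.primeFactors, p :=
        prod_le_prod' fun p hp => (Nat.prime_of_mem_primeFactors hp).two_le
      _ ≤ q := Nat.le_of_dvd (by omega) (Nat.prod_primeFactors_dvd q)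
  have q1 : (2 : ℝ) ^ q.primeFactors.card ≤ q := by exact_mod_cast h8
  have q2 := Real.log_le_log (by positivity) q1
  rw [Real.log_pow] at q2
  have q3 : (1 : ℝ) / 2 ≤ Real.log 2 := by linarith [Real.log_two_gt_d9]
  nlinarith [(Nat.cast_nonneg q.primeFactors.card : (0 : ℝ) ≤ (q.primeFactors.card : ℝ))]

/-- the contribution of prime powers not coprime to the modulus -/
theorem np_sum_not_coprime (N m : ℕ) (hm : 1 ≤ m) :
    ∑ n ∈ (Icc 1 N).filter (fun n => ¬ n.Coprime m), ArithmeticFunction.vonMangoldt n ≤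
      m.primeFactors.card * Real.log N := by
  set M := ∏ p ∈ m.primeFactors, p ^ (Nat.log p N) with hM
  have hM0 : M ≠ 0 := by
    rw [hM, prod_ne_zero_iff]
    intro p hp
    exact pow_ne_zero _ (Nat.prime_of_mem_primeFactors hp).ne_zero
  have h1 : ∑ n ∈ (Icc 1 N).filter (fun n => ¬ n.Coprime m), ArithmeticFunction.vonMangoldt n ≤
      ∑ n ∈ M.divisors, ArithmeticFunction.vonMangoldt n := by
    have h2 : ∑ n ∈ (Icc 1 N).filter (fun n => ¬ n.Coprime m),
        ArithmeticFunction.vonMangoldt n =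
        ∑ n ∈ ((Icc 1 N).filter (fun n => ¬ n.Coprime m)).filter
          (fun n => ArithmeticFunction.vonMangoldt n ≠ 0), ArithmeticFunction.vonMangoldt n := by
      rw [sum_filter_ne_zero]
    rw [h2]
    apply sum_le_sum_of_subset_of_nonneg
    · intro n hn
      rw [mem_filter, mem_filter, mem_Icc] at hn
      obtain ⟨⟨⟨h3, h4⟩, h5⟩, h6⟩ := hn
      rw [ArithmeticFunction.vonMangoldt_ne_zero_iff] at h6
      obtain ⟨p, k, hp, hk, rfl⟩ := h6
      have hp' : p.Prime := Nat.prime_iff.mpr hp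
      rw [Nat.mem_divisors]
      refine ⟨?_, hM0⟩
      have hpm : p ∣ m := by
        by_contra hcon
        apply h5
        exact Nat.Coprime.pow_left k ((Nat.Prime.coprime_iff_not_dvd hp').mpr hcon)
      have hmem : p ∈ m.primeFactors := Nat.mem_primeFactors.mpr ⟨hp', hpm, by omega⟩
      have hk2 : k ≤ Nat.log p N := Nat.le_log_of_pow_le hp'.one_lt h4
      exact (pow_dvd_pow p hk2).trans (dvd_prod_of_mem _ hmem)
    · intro n _ _
      exact ArithmeticFunction.vonMangoldt_nonneg
  refine h1.trans ?_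
  rw [ArithmeticFunction.vonMangoldt_sum, hM]
  push_cast
  rw [Real.log_prod]
  · calc ∑ p ∈ m.primeFactors, Real.log ((p:ℝ) ^ (Nat.log p N)) ≤
        ∑ p ∈ m.primeFactors, Real.log N := by
          apply sum_le_sum
          intro p hp
          have hp' := Nat.prime_of_mem_primeFactors hp
          rcases Nat.eq_zero_or_pos N with h | h
          · subst h; simp
          · apply Real.log_le_log
            · have := hp'.pos
              positivity
            · exact_mod_cast Nat.pow_log_le_self p (by omega)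
      _ = _ := by rw [sum_const, nsmul_eq_mul]
  · intro p hp
    have := (Nat.prime_of_mem_primeFactors hp).pos
    positivity

theorem nc : S_NC := by
  classical
  obtain ⟨M₀, hM₀⟩ : ∃ M₀ : ℕ, Real.exp 100 ≤ M₀ := exists_nat_ge _
  refine ⟨M₀ + 1, fun M hM m hm a b hb => ?_⟩
  rw [mem_Ioc] at hm
  have hM1 : 1 ≤ M := by omega
  have hMr : (1 : ℝ) ≤ M := by exact_mod_cast hM1
  have hlog : 100 ≤ Real.log M := by
    rw [Real.le_log_iff_exp_le (by linarith)]
    exact hM₀.trans (by exact_mod_cast (by omega : M₀ ≤ M))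
  have hm1 : 1 ≤ m := by omega
  have h1 : ∑ n ∈ (Ioc a b).filter (fun n => ¬ n.Coprime m), ArithmeticFunction.vonMangoldt n ≤
      ∑ n ∈ (Icc 1 b).filter (fun n => ¬ n.Coprime m), ArithmeticFunction.vonMangoldt n := by
    apply sum_le_sum_of_subset_of_nonneg
    · apply filter_subset_filter
      intro n hn
      rw [mem_Ioc] at hn
      rw [mem_Icc]
      omega
    · intro n _ _
      exact ArithmeticFunction.vonMangoldt_nonneg
  refine (h1.trans (np_sum_not_coprime b m hm1)).trans ?_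
  have h2 : (m.primeFactors.card : ℝ) ≤ 2 * (Real.log M + 1) := by
    refine (np_omega_le_log m hm1).trans ?_
    have h3 : Real.log m ≤ Real.log (2 * M) := by
      apply Real.log_le_log
      · exact_mod_cast (by omega : 0 < m)
      · exact_mod_cast hm.2
    rw [Real.log_mul (by norm_num) (by linarith)] at h3
    have h4 : Real.log 2 < 1 := by linarith [Real.log_two_lt_d9]
    linarith
  have h3 : Real.log b ≤ 2 * Real.log M := by
    rcases Nat.eq_zero_or_pos b with h | h
    · subst h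
      simp only [Nat.cast_zero, Real.log_zero]
      linarith
    · have h4 : Real.log b ≤ Real.log ((M : ℝ) ^ 2) :=
        Real.log_le_log (by exact_mod_cast h) hb
      rw [Real.log_pow] at h4
      push_cast at h4
      exact h4
  have hL : 0 < Real.log M := by linarith
  calc (m.primeFactors.card : ℝ) * Real.log b ≤ (2 * (Real.log M + 1)) * (2 * Real.log M) := by
        apply mul_le_mul h2 h3 (Real.log_natCast_nonneg b) (by positivity)
    _ ≤ (2 * (2 * Real.log M)) * (2 * Real.log M) := by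
        apply mul_le_mul_of_nonneg_right _ (by positivity)
        linarith
    _ = 8 * Real.log M ^ 2 := by ring
    _ ≤ Real.log M * Real.log M ^ 2 := by
        apply mul_le_mul_of_nonneg_right _ (by positivity)
        linarith
    _ = Real.log M ^ 3 := by ring

theorem pp : S_PP := by
  classical
  obtain ⟨M₀, hM₀⟩ : ∃ M₀ : ℕ, Real.exp 100 ≤ M₀ := exists_nat_ge _
  refine ⟨M₀ + 1, fun N hN => ?_⟩
  have hN1 : 1 ≤ N := by omega
  have hNr : (1 : ℝ) ≤ N := by exact_mod_cast hN1
  have hlog : 100 ≤ Real.log N := by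
    rw [Real.le_log_iff_exp_le (by linarith)]
    exact hM₀.trans (by exact_mod_cast (by omega : M₀ ≤ N))
  -- every proper prime power is `p ^ k` with `p ≤ √N`, `k ≤ log₂ N`
  have hsub : (Icc 1 N).filter (fun n => IsPrimePow n ∧ ¬ n.Prime) ⊆
      ((Icc 1 (Nat.sqrt N)) ×ˢ (Icc 1 (Nat.log 2 N))).image (fun x : ℕ × ℕ => x.1 ^ x.2) := by
    intro n hn
    rw [mem_filter, mem_Icc] at hn
    obtain ⟨⟨h1, h2⟩, h3, h4⟩ := hn
    rw [isPrimePow_nat_iff] at h3
    obtain ⟨p, k, hp, hk, rfl⟩ := h3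
    have hk2 : 2 ≤ k := by
      by_contra hcon
      have : k = 1 := by omega
      subst this
      rw [pow_one] at h4
      exact h4 hp
    rw [mem_image]
    refine ⟨(p, k), ?_, rfl⟩
    rw [mem_product, mem_Icc, mem_Icc]
    refine ⟨⟨hp.one_lt.le, ?_⟩, by omega, ?_⟩
    · rw [Nat.le_sqrt']
      exact (Nat.pow_le_pow_right hp.pos hk2).trans h2
    · apply Nat.le_log_of_pow_le (by norm_num)
      exact (Nat.pow_le_pow_left hp.two_le k).trans h2
  have h1 : (((Icc 1 N).filter (fun n => IsPrimePow n ∧ ¬ n.Prime)).card) ≤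
      Nat.sqrt N * Nat.log 2 N := by
    refine (card_le_card hsub).trans (card_image_le.trans ?_)
    rw [card_product, Nat.card_Icc, Nat.card_Icc, Nat.add_sub_cancel, Nat.add_sub_cancel]
  have h2 : ((Nat.sqrt N : ℕ) : ℝ) ≤ (N : ℝ) ^ (1 / 2 : ℝ) := by
    rw [← Real.sqrt_eq_rpow]
    exact Real.nat_sqrt_le_real_sqrt
  have h3 : ((Nat.log 2 N : ℕ) : ℝ) ≤ 2 * Real.log N := by
    have h4 : (2 : ℝ) ^ (Nat.log 2 N) ≤ N := by
      exact_mod_cast Nat.pow_log_le_self 2 (by omega)
    have h5 := Real.log_le_log (by positivity) h4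
    rw [Real.log_pow] at h5
    have q3 : (1 : ℝ) / 2 ≤ Real.log 2 := by linarith [Real.log_two_gt_d9]
    nlinarith [(Nat.cast_nonneg (Nat.log 2 N) : (0 : ℝ) ≤ ((Nat.log 2 N : ℕ) : ℝ))]
  calc (((Icc 1 N).filter (fun n => IsPrimePow n ∧ ¬ n.Prime)).card : ℝ) ≤
      ((Nat.sqrt N * Nat.log 2 N : ℕ) : ℝ) := by exact_mod_cast h1
    _ = (Nat.sqrt N : ℝ) * (Nat.log 2 N : ℝ) := by push_cast; rfl
    _ ≤ (N : ℝ) ^ (1 / 2 : ℝ) * (2 * Real.log N) := by
        apply mul_le_mul h2 h3 (Nat.cast_nonneg _) (by positivity)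
    _ ≤ (N : ℝ) ^ (1 / 2 : ℝ) * Real.log N ^ 2 := by
        apply mul_le_mul_of_nonneg_left _ (by positivity)
        nlinarith

end Pool.Agent.K9h44.SC
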