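import Pool.Agent.K9h44.SC.Rng

/-!
# Project SC: the primes in the windows of a strictly increasing sequence
-/

set_option autoImplicit false

namespace Pool.Agent.K9h44.SC

open Finset Filter

theorem Er_one (Y x : ℕ) :
    Er 1 0 Y x = ∑ n ∈ Ioc x (x + Y), ArithmeticFunction.vonMangoldt n - Y := by
  unfold Er
  rw [if_pos (by norm_num : Nat.Coprime 0 1), Nat.totient_one, Nat.cast_one, div_one]
  congr 1
  apply Finset.sum_congr _ (fun _ _ => rfl)
  apply Finset.filter_true_of_mem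
  intro n _
  exact Nat.modEq_one

theorem sum_windows (M T : ℕ) (f : ℕ → ℕ) (hf : ∀ m ∈ Ioc M (2 * M), M < f m ∧ f m ≤ T * M)
    (hmono : ∀ m ∈ Ioc M (2 * M), ∀ m' ∈ Ioc M (2 * M), m < m' → f m < f m') (g : ℕ → ℝ)
    (hg : ∀ x, 0 ≤ g x) : ∑ m ∈ Ioc M (2 * M), g (f m) ≤ ∑ x ∈ Ioc M (T * M), g x := by
  have hinj : ∀ m ∈ Ioc M (2 * M), ∀ m' ∈ Ioc M (2 * M), f m = f m' → m = m' := by
    intro m hm m' hm' h
    rcases lt_trichotomy m m' with h1 | h1 | h1
    · exact absurd h (hmono m hm m' hm' h1).ne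
    · exact h1
    · exact absurd h.symm (hmono m' hm' m hm h1).ne
  rw [← Finset.sum_image (f := g) (g := f) (s := Ioc M (2 * M)) (fun a ha b hb h => hinj a ha b hb h)]
  apply Finset.sum_le_sum_of_subset_of_nonneg
  · intro x hx
    rw [mem_image] at hx
    obtain ⟨m, hm, rfl⟩ := hx
    exact mem_Ioc.2 (hf m hm)
  · intro x _ _
    exact hg x

theorem one (h : S_RNG) : S_ONE := by
  intro B U
  obtain ⟨C, X₁, h1⟩ := h B U
  obtain ⟨X₂, h2⟩ := ev_log (P := fun l => 1 ≤ l) (eventually_ge_atTop 1)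
  refine ⟨C, max X₁ X₂, ?_⟩
  intro M hM T hT f hf hmono H hH1 hH2
  have g1 := h2 M ((le_max_right _ _).trans hM)
  have h3 := h1 M ((le_max_left _ _).trans hM) T hT 1 le_rfl (by
    rw [Nat.cast_one]; exact one_le_pow₀ g1) 0 H hH1 hH2
  refine le_trans ?_ h3
  refine le_trans (le_of_eq ?_) (sum_windows M T f hf hmono (fun x => |Er 1 0 H x|) fun x => abs_nonneg _)
  apply Finset.sum_congr rfl
  intro m _
  simp only [Er_one]

end Pool.Agent.K9h44.SC
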