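import Pool.Agent.K9h44.SC.One

/-!
# Project SC: pairs of primes `n`, `n + d m`, where `n` is in the window of `m`
-/

set_option autoImplicit false

namespace Pool.Agent.K9h44.SC

open Finset Filter

open scoped ArithmeticFunction.vonMangoldt

theorem Er_mod {d : ℕ} (hd : 1 ≤ d) (n Y x : ℕ) : |Er d n Y x| ≤ ∑ c ∈ range d, |Er d c Y x| := by
  have h1 : Er d n Y x = Er d (n % d) Y x := by
    have h2 : n ≡ n % d [MOD d] := (Nat.mod_modEq n d).symm
    unfold Er
    congr 1
    · apply Finset.sum_congr _ (fun _ _ => rfl)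
      apply Finset.filter_congr
      intro k _
      exact ⟨fun h => h.trans h2, fun h => h.trans h2.symm⟩
    · have h3 : n.Coprime d ↔ (n % d).Coprime d := by
        unfold Nat.Coprime
        rw [h2.gcd_eq]
      by_cases h4 : n.Coprime d
      · rw [if_pos h4, if_pos (h3.1 h4)]
      · rw [if_neg h4, if_neg (fun h => h4 (h3.2 h))]
  rw [h1]
  exact Finset.single_le_sum (f := fun c => |Er d c Y x|) (fun _ _ => abs_nonneg _)
    (mem_range.2 (Nat.mod_lt _ (by omega)))

theorem split_windows (d n Y p g : ℕ) (F : ℕ → ℝ) :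
    ∑ k ∈ (Ioc p (p + g * Y)).filter (fun k => k ≡ n [MOD d]), F k =
      ∑ i ∈ range g, ∑ k ∈ (Ioc (p + i * Y) (p + i * Y + Y)).filter (fun k => k ≡ n [MOD d]), F k := by
  induction g with
  | zero => simp
  | succ g ih =>
    rw [Finset.sum_range_succ, ← ih]
    have h1 : Ioc p (p + (g + 1) * Y) = Ioc p (p + g * Y) ∪ Ioc (p + g * Y) (p + g * Y + Y) := by
      ext k
      rw [mem_union, mem_Ioc, mem_Ioc, mem_Ioc, add_mul, one_mul]
      omega
    rw [h1, filter_union, Finset.sum_union]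
    apply Finset.disjoint_filter_filter
    rw [Finset.disjoint_left]
    intro k h2 h3
    rw [mem_Ioc] at h2 h3
    omega

theorem window_bound {d : ℕ} (n Y p g : ℕ) :
    ∑ k ∈ (Ioc p (p + g * Y)).filter (fun k => k ≡ n [MOD d]), Λ k ≤
      (g : ℝ) * ((Y : ℝ) / (Nat.totient d : ℝ)) + ∑ i ∈ range g, |Er d n Y (p + i * Y)| := by
  rw [split_windows]
  have h1 : ∀ i ∈ range g, ∑ k ∈ (Ioc (p + i * Y) (p + i * Y + Y)).filter (fun k => k ≡ n [MOD d]), Λ k ≤
      (Y : ℝ) / (Nat.totient d : ℝ) + |Er d n Y (p + i * Y)| := by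
    intro i _
    have h2 := le_abs_self (Er d n Y (p + i * Y))
    have h3 : (if n.Coprime d then (Y : ℝ) / (Nat.totient d : ℝ) else 0) ≤
        (Y : ℝ) / (Nat.totient d : ℝ) := by
      split_ifs
      · exact le_rfl
      · positivity
    have h4 : ∑ k ∈ (Ioc (p + i * Y) (p + i * Y + Y)).filter (fun k => k ≡ n [MOD d]), Λ k =
        Er d n Y (p + i * Y) + (if n.Coprime d then (Y : ℝ) / (Nat.totient d : ℝ) else 0) := by
      unfold Er; ring
    rw [h4]
    linarith
  refine (Finset.sum_le_sum h1).trans ?_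
  rw [Finset.sum_add_distrib, Finset.sum_const, card_range, nsmul_eq_mul]

theorem inner_bound {M H d Y : ℕ} (f : ℕ → ℕ)
    (hmono : ∀ m ∈ Ioc M (2 * M), ∀ m' ∈ Ioc M (2 * M), m < m' → f m < f m') (hd : 1 ≤ d) (hY : 1 ≤ Y)
    (n : ℕ) (K : Finset ℕ) (hK : K = (Ioc M (2 * M)).filter (fun m => f m < n ∧ n ≤ f m + H))
    (a : ℕ) (ha : a = sInf {m | m ∈ K}) (hne : K.Nonempty) :
    K.card ≤ H ∧ a ∈ K ∧
    ∑ m ∈ K, Λ (n + d * m) ≤ w d * (K.card : ℝ) + (Y : ℝ) / (Nat.totient d : ℝ) +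
      ∑ i ∈ range (d * H / Y + 1), |Er d n Y (n + d * (a - 1) + i * Y)| := by
  have haK : a ∈ K := by
    rw [ha]
    exact Nat.sInf_mem (s := {m | m ∈ K}) hne
  have hle : ∀ m ∈ K, a ≤ m := by
    intro m hm
    rw [ha]
    exact Nat.sInf_le (s := {m | m ∈ K}) hm
  have hmono' : ∀ m ∈ Ioc M (2 * M), ∀ m' ∈ Ioc M (2 * M), m ≤ m' → f m ≤ f m' := by
    intro m hm m' hm' h
    rcases h.eq_or_lt with h1 | h1
    · rw [h1]
    · exact (hmono m hm m' hm' h1).le
  have hgap : ∀ m ∈ Ioc M (2 * M), ∀ k : ℕ, m + k ∈ Ioc M (2 * M) → f m + k ≤ f (m + k) := by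
    intro m hm k
    induction k with
    | zero => intro _; simp
    | succ k ih =>
      intro hk
      rw [mem_Ioc] at hm hk
      have h1 := ih (mem_Ioc.2 ⟨by omega, by omega⟩)
      have h2 := hmono (m + k) (mem_Ioc.2 ⟨by omega, by omega⟩) (m + (k + 1)) (mem_Ioc.2 ⟨by omega, by omega⟩)
        (by omega)
      omega
  have haK' := haK
  rw [hK, mem_filter] at haK'
  obtain ⟨ha1, ha2, ha3⟩ := haK'
  have hrange : ∀ m ∈ K, m < a + K.card := by
    intro m hm
    have hm' := hm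
    rw [hK, mem_filter] at hm'
    obtain ⟨hm1, hm2, hm3⟩ := hm'
    have h1 : Icc a m ⊆ K := by
      intro k hk
      rw [mem_Icc] at hk
      rw [mem_Ioc] at ha1 hm1
      rw [hK, mem_filter]
      have hkI : k ∈ Ioc M (2 * M) := mem_Ioc.2 ⟨by omega, by omega⟩
      refine ⟨hkI, ?_, ?_⟩
      · exact lt_of_le_of_lt (hmono' k hkI m (mem_Ioc.2 hm1) hk.2) hm2
      · exact ha3.trans (Nat.add_le_add_right (hmono' a (mem_Ioc.2 ha1) k hkI hk.1) _)
    have h2 := card_le_card h1
    rw [Nat.card_Icc] at h2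
    omega
  have hcard : K.card ≤ H := by
    have h1 : K ⊆ Ico a (a + H) := by
      intro m hm
      have hm' := hm
      rw [hK, mem_filter] at hm'
      obtain ⟨hm1, hm2, hm3⟩ := hm'
      have h2 := hle m hm
      obtain ⟨k, rfl⟩ := Nat.exists_eq_add_of_le h2
      have h3 := hgap a ha1 k hm1
      rw [mem_Ico]
      omega
    have h2 := card_le_card h1
    rw [Nat.card_Ico] at h2
    omega
  refine ⟨hcard, haK, ?_⟩
  have ha0 : 1 ≤ a := by
    rw [mem_Ioc] at ha1
    omega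
  -- the number of windows
  obtain ⟨g, hg⟩ : ∃ g : ℕ, g = d * K.card / Y + 1 := ⟨_, rfl⟩
  have hg1 : d * K.card ≤ g * Y := by
    rw [hg, add_mul, one_mul]
    have := Nat.div_add_mod (d * K.card) Y
    have h2 := Nat.mod_lt (d * K.card) (show 0 < Y by omega)
    rw [Nat.mul_comm] at this
    omega
  have hg2 : g * Y ≤ d * K.card + Y := by
    rw [hg, add_mul, one_mul]
    exact Nat.add_le_add_right (Nat.div_mul_le_self _ _) _
  have hg3 : g ≤ d * H / Y + 1 := by
    rw [hg]
    exact Nat.add_le_add_right (Nat.div_le_div_right (Nat.mul_le_mul_left _ hcard)) _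
  have h1 : ∑ m ∈ K, Λ (n + d * m) ≤
      ∑ k ∈ (Ioc (n + d * (a - 1)) (n + d * (a - 1) + g * Y)).filter (fun k => k ≡ n [MOD d]), Λ k := by
    rw [← Finset.sum_image (f := fun k => Λ k) (g := fun m => n + d * m) (s := K)]
    · apply Finset.sum_le_sum_of_subset_of_nonneg
      · intro k hk
        rw [mem_image] at hk
        obtain ⟨m, hm, rfl⟩ := hk
        rw [mem_filter, mem_Ioc]
        have h2 := hle m hm
        have h3 := hrange m hm
        refine ⟨⟨?_, ?_⟩, ?_⟩
        · have : d * (a - 1) < d * m := Nat.mul_lt_mul_of_pos_left (by omega) (by omega)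
          omega
        · have : d * m ≤ d * (a - 1 + K.card) := Nat.mul_le_mul_left _ (by omega)
          rw [Nat.mul_add] at this
          omega
        · unfold Nat.ModEq
          rw [Nat.add_mul_mod_self_left]
      · intro k _ _
        exact ArithmeticFunction.vonMangoldt_nonneg
    · intro m1 _ m2 _ h
      simp only at h
      exact Nat.eq_of_mul_eq_mul_left (by omega : 0 < d) (by omega)
  refine h1.trans ((window_bound n Y (n + d * (a - 1)) g).trans ?_)
  have hφ : (0 : ℝ) < Nat.totient d := by exact_mod_cast Nat.totient_pos.2 (by omega)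
  have h2 : (g : ℝ) * ((Y : ℝ) / (Nat.totient d : ℝ)) ≤ w d * (K.card : ℝ) + (Y : ℝ) / (Nat.totient d : ℝ) := by
    have h3 : ((g * Y : ℕ) : ℝ) ≤ ((d * K.card + Y : ℕ) : ℝ) := by exact_mod_cast hg2
    push_cast at h3
    unfold w
    have h4 : (g : ℝ) * ((Y : ℝ) / (Nat.totient d : ℝ)) = ((g : ℝ) * Y) / (Nat.totient d : ℝ) := by ring
    have h5 : (d : ℝ) / (Nat.totient d : ℝ) * (K.card : ℝ) + (Y : ℝ) / (Nat.totient d : ℝ) =
        ((d : ℝ) * K.card + Y) / (Nat.totient d : ℝ) := by ring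
    rw [h4, h5]
    exact div_le_div_of_nonneg_right h3 hφ.le
  have h3 : ∑ i ∈ range g, |Er d n Y (n + d * (a - 1) + i * Y)| ≤
      ∑ i ∈ range (d * H / Y + 1), |Er d n Y (n + d * (a - 1) + i * Y)| :=
    Finset.sum_le_sum_of_subset_of_nonneg (range_subset_range.2 hg3) (fun _ _ _ => abs_nonneg _)
  linarith

end Pool.Agent.K9h44.SC
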