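import Pool.Agent.K9h44.SC.Pair

/-!
# Project SC: pairs of primes, the upper bound
-/

set_option autoImplicit false

namespace Pool.Agent.K9h44.SC

open Finset Filter

open scoped ArithmeticFunction.vonMangoldt

theorem pair_core {M T H d Y : ℕ} (f : ℕ → ℕ) (hf : ∀ m ∈ Ioc M (2 * M), M < f m ∧ f m ≤ T * M)
    (hmono : ∀ m ∈ Ioc M (2 * M), ∀ m' ∈ Ioc M (2 * M), m < m' → f m < f m') (hd : 1 ≤ d) (hY : 1 ≤ Y)
    (hHM : H ≤ M) (l : ℝ) (hl : ∀ n ∈ Ioc M ((T + 1) * M), Λ n ≤ l) (hl0 : 0 ≤ l) :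
    ∑ m ∈ Ioc M (2 * M), ∑ n ∈ Ioc (f m) (f m + H), Λ n * Λ (n + d * m) ≤
      w d * (∑ m ∈ Ioc M (2 * M), ∑ n ∈ Ioc (f m) (f m + H), Λ n) + (T * M : ℕ) * (l * Y) +
      l * ∑ _i ∈ range (d * H / Y + 1), ∑ c ∈ range d, ∑ x ∈ Ioc M ((T + 1 + 3 * d) * M), |Er d c Y x| := by
  classical
  obtain ⟨S, hS⟩ : ∃ S : Finset ℕ, S = Ioc M (2 * M) := ⟨_, rfl⟩
  obtain ⟨N, hN⟩ : ∃ N : Finset ℕ, N = Ioc M ((T + 1) * M) := ⟨_, rfl⟩
  obtain ⟨K, hK⟩ : ∃ K : ℕ → Finset ℕ, K = fun n => S.filter (fun m => f m < n ∧ n ≤ f m + H) :=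
    ⟨_, rfl⟩
  have hKmem : ∀ n m, m ∈ K n ↔ m ∈ S ∧ f m < n ∧ n ≤ f m + H := by
    intro n m
    rw [hK]
    simp only [mem_filter]
  have hw0 : 0 ≤ w d := by unfold w; positivity
  have hΛ0 : ∀ n, 0 ≤ Λ n := fun n => ArithmeticFunction.vonMangoldt_nonneg
  have hswap : ∀ F : ℕ → ℕ → ℝ, ∑ m ∈ S, ∑ n ∈ Ioc (f m) (f m + H), F m n =
      ∑ n ∈ N, ∑ m ∈ K n, F m n := by
    intro F
    apply Finset.sum_comm'
    intro m n
    rw [hKmem, hN, mem_Ioc, mem_Ioc]
    constructor
    · rintro ⟨h1, h2, h3⟩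
      rw [hS] at h1
      have h4 := hf m h1
      rw [← hS] at h1
      refine ⟨⟨h1, h2, h3⟩, by omega, ?_⟩
      rw [add_mul, one_mul]
      omega
    · rintro ⟨⟨h1, h2, h3⟩, _⟩
      exact ⟨h1, h2, h3⟩
  obtain ⟨a, ha⟩ : ∃ a : ℕ → ℕ, a = fun n => sInf {m | m ∈ K n} := ⟨_, rfl⟩
  have hin : ∀ n, (K n).Nonempty → (K n).card ≤ H ∧ a n ∈ K n ∧
      ∑ m ∈ K n, Λ (n + d * m) ≤ w d * ((K n).card : ℝ) + (Y : ℝ) / (Nat.totient d : ℝ) +
        ∑ i ∈ range (d * H / Y + 1), |Er d n Y (n + d * (a n - 1) + i * Y)| := by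
    intro n hne
    exact inner_bound f hmono hd hY n (K n) (by rw [hK, hS]) (a n) (by rw [ha]) hne
  obtain ⟨N', hN'⟩ : ∃ N' : Finset ℕ, N' = N.filter (fun n => (K n).Nonempty) := ⟨_, rfl⟩
  have hN'mem : ∀ n ∈ N', M < n ∧ n ≤ (T + 1) * M ∧ (K n).Nonempty := by
    intro n hn
    rw [hN', mem_filter, hN, mem_Ioc] at hn
    exact ⟨hn.1.1, hn.1.2, hn.2⟩
  have hamono : ∀ n ∈ N', ∀ n' ∈ N', n < n' → a n ≤ a n' := by
    intro n hn n' hn' hlt
    by_contra hc
    push Not at hc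
    have h1 := (hin n (hN'mem n hn).2.2).2.1
    have h2 := (hin n' (hN'mem n' hn').2.2).2.1
    rw [hKmem] at h1 h2
    have h1S := h1.1
    have h2S := h2.1
    rw [hS] at h1S h2S
    have h3 := hmono (a n') h2S (a n) h1S hc
    have h4 : a n' ∈ K n := by
      rw [hKmem]
      exact ⟨h2.1, by omega, by omega⟩
    have h5 : a n ≤ a n' := by
      rw [ha]
      exact Nat.sInf_le (s := {m | m ∈ K n}) (by rw [ha] at h4; exact h4)
    omega
  -- the left side
  have e1 : ∑ m ∈ Ioc M (2 * M), ∑ n ∈ Ioc (f m) (f m + H), Λ n * Λ (n + d * m) =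
      ∑ n ∈ N', Λ n * ∑ m ∈ K n, Λ (n + d * m) := by
    rw [← hS, hswap, hN', Finset.sum_filter]
    apply Finset.sum_congr rfl
    intro n _
    split_ifs with h
    · rw [Finset.mul_sum]
    · rw [Finset.not_nonempty_iff_eq_empty.1 h, Finset.sum_empty]
  have e2 : ∑ n ∈ N', Λ n * ((K n).card : ℝ) ≤
      ∑ m ∈ Ioc M (2 * M), ∑ n ∈ Ioc (f m) (f m + H), Λ n := by
    rw [← hS, hswap]
    calc ∑ n ∈ N', Λ n * ((K n).card : ℝ) ≤ ∑ n ∈ N, Λ n * ((K n).card : ℝ) := by
          apply Finset.sum_le_sum_of_subset_of_nonneg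
          · rw [hN']; exact filter_subset _ _
          · intro n _ _
            exact mul_nonneg (hΛ0 n) (Nat.cast_nonneg _)
      _ = ∑ n ∈ N, ∑ m ∈ K n, Λ n := by
          apply Finset.sum_congr rfl
          intro n _
          rw [Finset.sum_const, nsmul_eq_mul, mul_comm]
  have hl' : ∀ n ∈ N', Λ n ≤ l := by
    intro n hn
    have := hN'mem n hn
    exact hl n (mem_Ioc.2 ⟨this.1, this.2.1⟩)
  have e3 : ∑ n ∈ N', Λ n * ((Y : ℝ) / (Nat.totient d : ℝ)) ≤ (T * M : ℕ) * (l * Y) := by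
    have hφ : (1 : ℝ) ≤ Nat.totient d := by exact_mod_cast Nat.totient_pos.2 (by omega)
    calc ∑ n ∈ N', Λ n * ((Y : ℝ) / (Nat.totient d : ℝ)) ≤ ∑ n ∈ N', l * Y := by
          apply Finset.sum_le_sum
          intro n hn
          apply mul_le_mul (hl' n hn) _ (by positivity) hl0
          exact div_le_self (Nat.cast_nonneg _) hφ
      _ = (N'.card : ℝ) * (l * Y) := by rw [Finset.sum_const, nsmul_eq_mul]
      _ ≤ (T * M : ℕ) * (l * Y) := by
          apply mul_le_mul_of_nonneg_right _ (by positivity)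
          have h1 : N'.card ≤ N.card := by rw [hN']; exact card_filter_le _ _
          have h2 : N.card = T * M := by
            rw [hN, Nat.card_Ioc, add_mul, one_mul]; omega
          exact_mod_cast h1.trans h2.le
  have e4 : ∑ n ∈ N', Λ n * ∑ i ∈ range (d * H / Y + 1), |Er d n Y (n + d * (a n - 1) + i * Y)| ≤
      l * ∑ _i ∈ range (d * H / Y + 1), ∑ c ∈ range d, ∑ x ∈ Ioc M ((T + 1 + 3 * d) * M), |Er d c Y x| := by
    calc ∑ n ∈ N', Λ n * ∑ i ∈ range (d * H / Y + 1), |Er d n Y (n + d * (a n - 1) + i * Y)| ≤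
          ∑ n ∈ N', l * ∑ i ∈ range (d * H / Y + 1), ∑ c ∈ range d, |Er d c Y (n + d * (a n - 1) + i * Y)| := by
            apply Finset.sum_le_sum
            intro n hn
            apply mul_le_mul (hl' n hn) _ (Finset.sum_nonneg fun _ _ => abs_nonneg _) hl0
            exact Finset.sum_le_sum fun i _ => Er_mod hd n Y _
      _ = l * ∑ i ∈ range (d * H / Y + 1), ∑ c ∈ range d,
            ∑ n ∈ N', |Er d c Y (n + d * (a n - 1) + i * Y)| := by
            rw [← Finset.mul_sum, Finset.sum_comm]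
            congr 1
            apply Finset.sum_congr rfl
            intro i _
            rw [Finset.sum_comm]
      _ ≤ _ := by
            apply mul_le_mul_of_nonneg_left _ hl0
            apply Finset.sum_le_sum
            intro i hi
            apply Finset.sum_le_sum
            intro c _
            rw [← Finset.sum_image (f := fun x => |Er d c Y x|)
              (g := fun n => n + d * (a n - 1) + i * Y) (s := N')]
            · apply Finset.sum_le_sum_of_subset_of_nonneg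
              · intro x hx
                rw [mem_image] at hx
                obtain ⟨n, hn, rfl⟩ := hx
                obtain ⟨h1, h2, h3⟩ := hN'mem n hn
                have h4 := (hin n h3).2.1
                rw [hKmem, hS, mem_Ioc] at h4
                have h5 : d * (a n - 1) ≤ d * (2 * M) := Nat.mul_le_mul_left _ (by omega)
                rw [mem_range] at hi
                have h6 : i * Y ≤ d * M := by
                  calc i * Y ≤ (d * H / Y) * Y := Nat.mul_le_mul_right _ (by omega)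
                    _ ≤ d * H := Nat.div_mul_le_self _ _
                    _ ≤ d * M := Nat.mul_le_mul_left _ hHM
                rw [mem_Ioc]
                constructor
                · omega
                · have h7 : (T + 1 + 3 * d) * M = (T + 1) * M + d * (2 * M) + d * M := by ring
                  rw [h7]
                  omega
              · intro x _ _
                exact abs_nonneg _
            · intro n1 h1 n2 h2 h3
              simp only at h3
              have key : ∀ n ∈ N', ∀ n' ∈ N', n < n' → n + d * (a n - 1) < n' + d * (a n' - 1) := by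
                intro n hn n' hn' hlt
                have h4 : d * (a n - 1) ≤ d * (a n' - 1) :=
                  Nat.mul_le_mul_left _ (Nat.sub_le_sub_right (hamono n hn n' hn' hlt) _)
                omega
              rcases lt_trichotomy n1 n2 with h4 | h4 | h4
              · have := key n1 h1 n2 h2 h4
                omega
              · exact h4
              · have := key n2 h2 n1 h1 h4
                omega
  rw [e1]
  calc ∑ n ∈ N', Λ n * ∑ m ∈ K n, Λ (n + d * m) ≤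
        ∑ n ∈ N', (w d * (Λ n * ((K n).card : ℝ)) + Λ n * ((Y : ℝ) / (Nat.totient d : ℝ)) +
          Λ n * ∑ i ∈ range (d * H / Y + 1), |Er d n Y (n + d * (a n - 1) + i * Y)|) := by
          apply Finset.sum_le_sum
          intro n hn
          have h1 := mul_le_mul_of_nonneg_left (hin n (hN'mem n hn).2.2).2.2 (hΛ0 n)
          refine h1.trans (le_of_eq ?_)
          ring
    _ = w d * ∑ n ∈ N', Λ n * ((K n).card : ℝ) + ∑ n ∈ N', Λ n * ((Y : ℝ) / (Nat.totient d : ℝ)) +
          ∑ n ∈ N', Λ n * ∑ i ∈ range (d * H / Y + 1), |Er d n Y (n + d * (a n - 1) + i * Y)| := by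
          rw [Finset.sum_add_distrib, Finset.sum_add_distrib, Finset.mul_sum]
    _ ≤ _ := by
          apply add_le_add (add_le_add (mul_le_mul_of_nonneg_left e2 hw0) e3) e4

theorem pair (h : S_RNG) : S_PAIR := by
  intro B U
  obtain ⟨E, hE⟩ : ∃ E : ℕ, E = U + B + 3 := ⟨_, rfl⟩
  obtain ⟨C₁, X₁, h1⟩ := h (B + 1) (U + 2 * B + 3)
  obtain ⟨X₂, h2⟩ := ev_log (P := fun l => 16 ≤ l ∧ l ^ (B + 1) ≤ Real.exp l) (by
    filter_upwards [eventually_ge_atTop 16,
      (Real.isLittleO_pow_exp_atTop (n := B + 1)).bound (show (0 : ℝ) < 1 by norm_num)] with l a1 a2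
    refine ⟨a1, ?_⟩
    rw [one_mul, Real.norm_of_nonneg (by positivity), Real.norm_of_nonneg (by positivity)] at a2
    exact a2)
  refine ⟨C₁ + E, max (max X₁ X₂) 1, ?_⟩
  intro M hM T hT f hf hmono d hd hdM H hH1 hHM
  obtain ⟨g1, g2⟩ := h2 M ((le_max_right _ _).trans ((le_max_left _ _).trans hM))
  have hM1 : X₁ ≤ M := (le_max_left _ _).trans ((le_max_left _ _).trans hM)
  have hM0 : 1 ≤ M := (le_max_right _ _).trans hM
  have hM0r : (0 : ℝ) < M := by exact_mod_cast hM0
  have h1' := h1 M hM1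
  obtain ⟨L, hLd⟩ : ∃ L : ℝ, L = Real.log M := ⟨_, rfl⟩
  rw [← hLd] at g1 g2 hT hdM hH1 h1' ⊢
  have hL0 : 0 < L := by linarith
  have hL1 : 1 ≤ L := by linarith
  have hexp : Real.exp L = M := by rw [hLd, Real.exp_log hM0r]
  rw [hexp] at g2
  have hLB : 1 ≤ L ^ B := one_le_pow₀ hL1
  have hLE : 1 ≤ L ^ E := one_le_pow₀ hL1
  have hLE0 : 0 < L ^ E := by positivity
  have hM13 : (1 : ℝ) ≤ (M : ℝ) ^ (1 / 3 : ℝ) :=
    Real.one_le_rpow (by exact_mod_cast hM0) (by norm_num)
  -- the length of the windows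
  obtain ⟨Y, hY⟩ : ∃ Y : ℕ, Y = ⌊(H : ℝ) / L ^ E⌋₊ + 1 := ⟨_, rfl⟩
  have hHE : (M : ℝ) ^ (1 / 3 : ℝ) * L ^ C₁ ≤ (H : ℝ) / L ^ E := by
    rw [le_div_iff₀ hLE0, mul_assoc, ← pow_add]
    exact hH1
  have hHE1 : 1 ≤ (H : ℝ) / L ^ E :=
    le_trans (one_le_mul_of_one_le_of_one_le hM13 (one_le_pow₀ hL1)) hHE
  have hY1 : 1 ≤ Y := by rw [hY]; omega
  have hYlow : (H : ℝ) / L ^ E ≤ Y := by
    rw [hY]; push_cast; exact (Nat.lt_floor_add_one _).le
  have hYup : (Y : ℝ) ≤ 2 * ((H : ℝ) / L ^ E) := by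
    rw [hY]
    push_cast
    have := Nat.floor_le (show 0 ≤ (H : ℝ) / L ^ E by positivity)
    linarith
  have hL2 : 2 ≤ L ^ E := by
    calc (2 : ℝ) ≤ L := by linarith
      _ = L ^ 1 := (pow_one L).symm
      _ ≤ L ^ E := pow_le_pow_right₀ hL1 (by omega)
  have hYH : (Y : ℝ) ≤ H := by
    refine hYup.trans ?_
    rw [mul_div_assoc', div_le_iff₀ hLE0]
    nlinarith [(Nat.cast_nonneg H : (0 : ℝ) ≤ H)]
  have hYHn : Y ≤ H := by exact_mod_cast hYH
  have hYM : Y ≤ M := hYHn.trans hHM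
  -- the range
  have hT' : ((T + 1 + 3 * d : ℕ) : ℝ) ≤ L ^ (B + 1) := by
    push_cast
    rw [pow_succ]
    nlinarith
  have hdM' : (d : ℝ) ≤ L ^ (B + 1) := hdM.trans (pow_le_pow_right₀ hL1 (by omega))
  have hΛ : ∀ n ∈ Ioc M ((T + 1) * M), Λ n ≤ 2 * L := by
    intro n hn
    rw [mem_Ioc] at hn
    refine ArithmeticFunction.vonMangoldt_le_log.trans ?_
    have e : (2 : ℝ) * L = Real.log ((M : ℝ) * M) := by
      rw [Real.log_mul hM0r.ne' hM0r.ne', ← hLd]; ring
    rw [e]
    apply Real.log_le_log (by exact_mod_cast (by omega : 0 < n))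
    have h3 : (n : ℝ) ≤ (((T + 1) * M : ℕ) : ℝ) := by exact_mod_cast hn.2
    refine h3.trans ?_
    push_cast
    apply mul_le_mul_of_nonneg_right _ hM0r.le
    refine le_trans ?_ g2
    rw [pow_succ]
    nlinarith
  have hcore := pair_core f hf hmono hd hY1 hHM (2 * L) hΛ (by linarith)
  refine hcore.trans ?_
  rw [add_assoc]
  apply add_le_add_right
  have hMH0 : (0 : ℝ) ≤ M * (H : ℝ) := by positivity
  have t2 : ((T * M : ℕ) : ℝ) * (2 * L * Y) ≤ 4 * (M * (H : ℝ)) / L ^ (U + 2) := by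
    push_cast
    calc (T : ℝ) * M * (2 * L * Y) ≤ L ^ B * M * (2 * L * (2 * ((H : ℝ) / L ^ E))) := by
          gcongr
      _ = 4 * (M * (H : ℝ)) * (L ^ (B + 1) / L ^ E) := by ring
      _ = 4 * (M * (H : ℝ)) / L ^ (U + 2) := by
          have : L ^ E = L ^ (B + 1) * L ^ (U + 2) := by
            rw [hE, ← pow_add]; congr 1; ring
          rw [this]
          have a1 : L ^ (B + 1) ≠ 0 := by positivity
          have a2 : L ^ (U + 2) ≠ 0 := by positivity
          field_simp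
  have t3 : 2 * L * ∑ _i ∈ range (d * H / Y + 1), ∑ c ∈ range d,
      ∑ x ∈ Ioc M ((T + 1 + 3 * d) * M), |Er d c Y x| ≤ 4 * (M * (H : ℝ)) / L ^ (U + 2) := by
    have hb : ∀ c ∈ range d, ∑ x ∈ Ioc M ((T + 1 + 3 * d) * M), |Er d c Y x| ≤
        M * (Y : ℝ) / L ^ (U + 2 * B + 3) := by
      intro c _
      exact h1' (T + 1 + 3 * d) hT' d hd hdM' c Y (hHE.trans hYlow) hYM
    have hGY : (((d * H / Y + 1 : ℕ) : ℝ)) * Y ≤ 2 * (d * (H : ℝ)) := by
      have e1 : (d * H / Y + 1) * Y ≤ 2 * (d * H) := by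
        rw [add_mul, one_mul]
        have a1 : d * H / Y * Y ≤ d * H := Nat.div_mul_le_self _ _
        have a2 : Y ≤ d * H := hYHn.trans (Nat.le_mul_of_pos_left H (by omega))
        omega
      exact_mod_cast e1
    calc 2 * L * ∑ _i ∈ range (d * H / Y + 1), ∑ c ∈ range d,
          ∑ x ∈ Ioc M ((T + 1 + 3 * d) * M), |Er d c Y x| ≤
          2 * L * ∑ _i ∈ range (d * H / Y + 1), ∑ c ∈ range d, M * (Y : ℝ) / L ^ (U + 2 * B + 3) := by
            apply mul_le_mul_of_nonneg_left _ (by positivity)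
            exact Finset.sum_le_sum fun _ _ => Finset.sum_le_sum hb
      _ = 2 * L * d * M / L ^ (U + 2 * B + 3) * ((((d * H / Y + 1 : ℕ) : ℝ)) * Y) := by
            rw [Finset.sum_const, Finset.sum_const, card_range, card_range, nsmul_eq_mul, nsmul_eq_mul]
            ring
      _ ≤ 2 * L * d * M / L ^ (U + 2 * B + 3) * (2 * (d * (H : ℝ))) := by
            apply mul_le_mul_of_nonneg_left hGY (by positivity)
      _ ≤ 2 * L * L ^ B * M / L ^ (U + 2 * B + 3) * (2 * (L ^ B * (H : ℝ))) := by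
            gcongr
      _ = 4 * (M * (H : ℝ)) / L ^ (U + 2) := by
            have : L ^ (U + 2 * B + 3) = L ^ B * L ^ B * L * L ^ (U + 2) := by ring
            rw [this]
            have a1 : L ^ B ≠ 0 := by positivity
            have a2 : L ^ (U + 2) ≠ 0 := by positivity
            field_simp
            ring
  refine (add_le_add t2 t3).trans ?_
  rw [← add_div, div_le_div_iff₀ (by positivity) (by positivity)]
  have e5 : L ^ (U + 2) = L ^ U * L ^ 2 := by rw [pow_add]
  rw [e5]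
  have e6 : (8 : ℝ) ≤ L ^ 2 := by nlinarith
  have e7 : 0 ≤ M * (H : ℝ) * L ^ U := by positivity
  nlinarith

end Pool.Agent.K9h44.SC
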