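import Pool.Agent.K9h44.SC.Stm

/-!
# Project SC: the range of powers of the logarithm
-/

set_option autoImplicit false

namespace Pool.Agent.K9h44.SC

open Finset Filter

/-- eventual statements on `log` for natural numbers -/
theorem ev_log {P : ℝ → Prop} (h : ∀ᶠ l in atTop, P l) : ∃ N₀ : ℕ, ∀ N : ℕ, N₀ ≤ N → P (Real.log N) := by
  have h1 : ∀ᶠ n : ℕ in atTop, P (Real.log (n : ℝ)) :=
    (Real.tendsto_log_atTop.comp tendsto_natCast_atTop_atTop).eventually h
  exact eventually_atTop.1 h1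

theorem le_of_sq {a b : ℝ} (hb : 0 ≤ b) (h : a ^ 2 ≤ b ^ 2) : a ≤ b := by
  by_contra hc
  push Not at hc
  nlinarith

theorem rng (hL : S_LAM) : S_RNG := by
  intro B U
  obtain ⟨C₁, X₁, h1⟩ := hL B (3 * B + 2 * U)
  obtain ⟨X₂, h2⟩ := ev_log (P := fun l => 1 ≤ l ∧ (2 : ℝ) ^ C₁ ≤ l ∧ l ^ B ≤ Real.exp l) (by
    filter_upwards [eventually_ge_atTop 1, eventually_ge_atTop ((2 : ℝ) ^ C₁),
      (Real.isLittleO_pow_exp_atTop (n := B)).bound (show (0 : ℝ) < 1 by norm_num)] with l a1 a2 a3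
    refine ⟨a1, a2, ?_⟩
    rw [one_mul, Real.norm_of_nonneg (by positivity), Real.norm_of_nonneg (by positivity)] at a3
    exact a3)
  refine ⟨B + C₁ + 1, max (max X₁ X₂) 1, ?_⟩
  intro M hM T hT q hq hqM c Y hY hYM
  obtain ⟨g1, g2, g3⟩ := h2 M ((le_max_right _ _).trans ((le_max_left _ _).trans hM))
  have hM1 : X₁ ≤ M := (le_max_left _ _).trans ((le_max_left _ _).trans hM)
  have hM0 : 1 ≤ M := (le_max_right _ _).trans hM
  have hM0r : (0 : ℝ) < M := by exact_mod_cast hM0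
  obtain ⟨L, hLd⟩ : ∃ L : ℝ, L = Real.log M := ⟨_, rfl⟩
  rw [← hLd] at g1 g2 g3 hT hqM hY ⊢
  have hL0 : 0 < L := by linarith
  have hexp : Real.exp L = M := by rw [hLd, Real.exp_log hM0r]
  rw [hexp] at g3
  have hTM : (T : ℝ) ≤ M := hT.trans g3
  have hY0 : (0 : ℝ) ≤ Y := Nat.cast_nonneg _
  -- the blocks
  obtain ⟨I, hI⟩ : ∃ I : Finset ℕ, I = (range T).filter (fun i => 2 ^ i < T) := ⟨_, rfl⟩
  have hsq : ∑ x ∈ Ioc M (T * M), |Er q c Y x| ^ 2 ≤ M * (Y : ℝ) ^ 2 * L ^ (2 * B) / L ^ (3 * B + 2 * U) := by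
    have hblock : ∀ i ∈ I, ∑ x ∈ Ioc (2 ^ i * M) (2 * (2 ^ i * M)), |Er q c Y x| ^ 2 ≤
        M * (Y : ℝ) ^ 2 * L ^ B / L ^ (3 * B + 2 * U) := by
      intro i hi
      rw [hI, mem_filter] at hi
      have hi2 : ((2 : ℝ) ^ i) ≤ T := by exact_mod_cast hi.2.le
      have hi1 : (1 : ℝ) ≤ 2 ^ i := one_le_pow₀ (by norm_num)
      have hx1 : M ≤ 2 ^ i * M := Nat.le_mul_of_pos_left M (by positivity)
      have hlog1 : L ≤ Real.log ((2 ^ i * M : ℕ) : ℝ) := by
        rw [hLd]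
        exact Real.log_le_log hM0r (by exact_mod_cast hx1)
      have hlog2 : Real.log ((2 ^ i * M : ℕ) : ℝ) ≤ 2 * L := by
        have e : (2 : ℝ) * L = Real.log ((M : ℝ) * M) := by
          rw [Real.log_mul hM0r.ne' hM0r.ne', ← hLd]; ring
        rw [e]
        apply Real.log_le_log (by positivity)
        push_cast
        exact mul_le_mul_of_nonneg_right (hi2.trans hTM) hM0r.le
      refine (h1 (2 ^ i * M) (hM1.trans hx1) q hq (hqM.trans ?_) c Y ?_ (hYM.trans hx1)).trans ?_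
      · exact pow_le_pow_left₀ hL0.le hlog1 _
      · refine le_trans ?_ hY
        have e1 : (((2 ^ i * M : ℕ) : ℝ)) ^ (1 / 3 : ℝ) ≤ L ^ B * (M : ℝ) ^ (1 / 3 : ℝ) := by
          push_cast
          rw [Real.mul_rpow (by positivity) hM0r.le]
          apply mul_le_mul_of_nonneg_right _ (by positivity)
          calc ((2 : ℝ) ^ i) ^ (1 / 3 : ℝ) ≤ ((2 : ℝ) ^ i) ^ (1 : ℝ) :=
                Real.rpow_le_rpow_of_exponent_le hi1 (by norm_num)
            _ = (2 : ℝ) ^ i := Real.rpow_one _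
            _ ≤ L ^ B := hi2.trans hT
        have e2 : Real.log ((2 ^ i * M : ℕ) : ℝ) ^ C₁ ≤ L * L ^ C₁ := by
          calc Real.log ((2 ^ i * M : ℕ) : ℝ) ^ C₁ ≤ (2 * L) ^ C₁ :=
                pow_le_pow_left₀ (hL0.le.trans hlog1) hlog2 _
            _ = 2 ^ C₁ * L ^ C₁ := by rw [mul_pow]
            _ ≤ L * L ^ C₁ := mul_le_mul_of_nonneg_right g2 (by positivity)
        calc (((2 ^ i * M : ℕ) : ℝ)) ^ (1 / 3 : ℝ) * Real.log ((2 ^ i * M : ℕ) : ℝ) ^ C₁ ≤
              (L ^ B * (M : ℝ) ^ (1 / 3 : ℝ)) * (L * L ^ C₁) := by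
                apply mul_le_mul e1 e2 (pow_nonneg (hL0.le.trans hlog1) _) (by positivity)
          _ = (M : ℝ) ^ (1 / 3 : ℝ) * L ^ (B + C₁ + 1) := by ring
      · have e3 : L ^ (3 * B + 2 * U) ≤ Real.log ((2 ^ i * M : ℕ) : ℝ) ^ (3 * B + 2 * U) :=
          pow_le_pow_left₀ hL0.le hlog1 _
        have e4 : ((2 ^ i * M : ℕ) : ℝ) * (Y : ℝ) ^ 2 ≤ M * (Y : ℝ) ^ 2 * L ^ B := by
          push_cast
          calc (2 : ℝ) ^ i * M * (Y : ℝ) ^ 2 ≤ L ^ B * M * (Y : ℝ) ^ 2 := by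
                gcongr
                exact hi2.trans hT
            _ = M * (Y : ℝ) ^ 2 * L ^ B := by ring
        exact div_le_div₀ (by positivity) e4 (by positivity) e3
    have hcov : ∑ x ∈ Ioc M (T * M), |Er q c Y x| ^ 2 ≤
        ∑ i ∈ I, ∑ x ∈ Ioc (2 ^ i * M) (2 * (2 ^ i * M)), |Er q c Y x| ^ 2 := by
      have hmaps : ∀ x ∈ Ioc M (T * M), Nat.log 2 ((x - 1) / M) ∈ I := by
        intro x hx
        rw [mem_Ioc] at hx
        have hq1 : 1 ≤ (x - 1) / M := (Nat.one_le_div_iff (by omega)).2 (by omega)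
        have hq2 : (x - 1) / M < T := by
          rw [Nat.div_lt_iff_lt_mul (by omega)]
          omega
        have h3 : 2 ^ (Nat.log 2 ((x - 1) / M)) ≤ (x - 1) / M := Nat.pow_log_le_self 2 (by omega)
        rw [hI, mem_filter, mem_range]
        have h4 : Nat.log 2 ((x - 1) / M) < 2 ^ (Nat.log 2 ((x - 1) / M)) := Nat.lt_two_pow_self
        constructor <;> omega
      rw [← Finset.sum_fiberwise_of_maps_to hmaps]
      apply Finset.sum_le_sum
      intro i hi
      apply Finset.sum_le_sum_of_subset_of_nonneg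
      · intro x hx
        rw [mem_filter, mem_Ioc] at hx
        obtain ⟨⟨hx1, hx2⟩, hx3⟩ := hx
        have hq1 : 1 ≤ (x - 1) / M := (Nat.one_le_div_iff (by omega)).2 (by omega)
        have h3 : 2 ^ i ≤ (x - 1) / M := by
          rw [← hx3]; exact Nat.pow_log_le_self 2 (by omega)
        have h4 : (x - 1) / M < 2 ^ (i + 1) := by
          rw [← hx3]; exact Nat.lt_pow_succ_log_self (by norm_num) _
        have h5 : 2 ^ i * M ≤ x - 1 := (Nat.le_div_iff_mul_le (by omega)).1 h3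
        have h6 : x - 1 < 2 ^ (i + 1) * M := (Nat.div_lt_iff_lt_mul (by omega)).1 h4
        rw [mem_Ioc]
        constructor
        · omega
        · rw [pow_succ] at h6
          have : 2 * (2 ^ i * M) = 2 ^ i * 2 * M := by ring
          omega
      · intro x _ _
        positivity
    refine hcov.trans ((Finset.sum_le_sum hblock).trans ?_)
    rw [Finset.sum_const, nsmul_eq_mul]
    have hcard : ((I.card : ℕ) : ℝ) ≤ L ^ B := by
      refine le_trans ?_ hT
      have : I.card ≤ T := by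
        rw [hI]
        exact (card_filter_le _ _).trans (by rw [card_range])
      exact_mod_cast this
    calc (I.card : ℝ) * (M * (Y : ℝ) ^ 2 * L ^ B / L ^ (3 * B + 2 * U)) ≤
          L ^ B * (M * (Y : ℝ) ^ 2 * L ^ B / L ^ (3 * B + 2 * U)) :=
            mul_le_mul_of_nonneg_right hcard (by positivity)
      _ = M * (Y : ℝ) ^ 2 * L ^ (2 * B) / L ^ (3 * B + 2 * U) := by
            rw [mul_div_assoc', two_mul B, pow_add]; ring_nf
  -- Cauchy's inequality
  apply le_of_sq (by positivity)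
  refine (sq_sum_le_card_mul_sum_sq).trans ?_
  have hcard2 : (((Ioc M (T * M)).card : ℕ) : ℝ) ≤ L ^ B * M := by
    rw [Nat.card_Ioc]
    calc ((T * M - M : ℕ) : ℝ) ≤ ((T * M : ℕ) : ℝ) := by exact_mod_cast Nat.sub_le _ _
      _ = T * M := by push_cast; ring
      _ ≤ L ^ B * M := mul_le_mul_of_nonneg_right hT hM0r.le
  calc (((Ioc M (T * M)).card : ℕ) : ℝ) * ∑ x ∈ Ioc M (T * M), |Er q c Y x| ^ 2 ≤
        (L ^ B * M) * (M * (Y : ℝ) ^ 2 * L ^ (2 * B) / L ^ (3 * B + 2 * U)) := by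
          apply mul_le_mul hcard2 hsq (Finset.sum_nonneg fun _ _ => by positivity) (by positivity)
    _ = (M * (Y : ℝ) / L ^ U) ^ 2 := by
        have hLU : L ^ (3 * B + 2 * U) = L ^ B * L ^ (2 * B) * (L ^ U) ^ 2 := by
          rw [← pow_mul, ← pow_add, ← pow_add]; congr 1; ring
        rw [hLU]
        have a1 : L ^ B ≠ 0 := by positivity
        have a2 : L ^ (2 * B) ≠ 0 := by positivity
        have a3 : L ^ U ≠ 0 := by positivity
        field_simp

end Pool.Agent.K9h44.SC
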